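import Pool.Agent.W2helper17.TP.Stm

/-!
# Band-dominated operators and Toeplitz algebras on a closed subspace of `L²(ℂ, gm)`
-/

namespace TP

open MeasureTheory Complex Filter
open scoped ENNReal Topology

noncomputable section

section abstractalg

variable {E : Type*} [NormedAddCommGroup E] [InnerProductSpace ℂ E] [CompleteSpace E]

/-- the C*-algebra generated by a set of bounded operators: the norm closure of the unital
star subalgebra generated by the set -/
def genAlg (s : Set (E →L[ℂ] E)) : StarSubalgebra ℂ (E →L[ℂ] E) :=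
  (StarAlgebra.adjoin ℂ s).topologicalClosure

theorem genAlg_sub (s : Set (E →L[ℂ] E)) {T : E →L[ℂ] E} (hT : T ∈ s) : T ∈ genAlg s :=
  (StarAlgebra.adjoin ℂ s).le_topologicalClosure (StarAlgebra.subset_adjoin ℂ s hT)

theorem genAlg_closed (s : Set (E →L[ℂ] E)) : IsClosed (genAlg s : Set (E →L[ℂ] E)) :=
  StarSubalgebra.isClosed_topologicalClosure _

theorem genAlg_add (s : Set (E →L[ℂ] E)) {S T : E →L[ℂ] E} (hS : S ∈ genAlg s)
    (hT : T ∈ genAlg s) : S + T ∈ genAlg s := add_mem hS hT

theorem genAlg_smul (s : Set (E →L[ℂ] E)) (c : ℂ) {S : E →L[ℂ] E} (hS : S ∈ genAlg s) :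
    c • S ∈ genAlg s := (genAlg s).smul_mem hS c

theorem genAlg_mul (s : Set (E →L[ℂ] E)) {S T : E →L[ℂ] E} (hS : S ∈ genAlg s)
    (hT : T ∈ genAlg s) : S ∘L T ∈ genAlg s := mul_mem hS hT

theorem genAlg_min (s : Set (E →L[ℂ] E)) (B : Set (E →L[ℂ] E)) (hcl : IsClosed B) (hs : s ⊆ B)
    (hone : ∀ c : ℂ, c • ContinuousLinearMap.id ℂ E ∈ B)
    (hadd : ∀ S ∈ B, ∀ T ∈ B, S + T ∈ B) (hmul : ∀ S ∈ B, ∀ T ∈ B, S ∘L T ∈ B)
    (hadj : ∀ S ∈ B, ContinuousLinearMap.adjoint S ∈ B) :
    (genAlg s : Set (E →L[ℂ] E)) ⊆ B := by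
  let B' : StarSubalgebra ℂ (E →L[ℂ] E) :=
    { carrier := B
      mul_mem' := fun {S T} hS hT => hmul S hS T hT
      add_mem' := fun {S T} hS hT => hadd S hS T hT
      algebraMap_mem' := fun c => by
        rw [Algebra.algebraMap_eq_smul_one]
        exact hone c
      star_mem' := fun {S} hS => hadj S hS }
  have h1 : StarAlgebra.adjoin ℂ s ≤ B' := by
    rw [StarAlgebra.adjoin_le_iff]
    exact hs
  exact StarSubalgebra.topologicalClosure_minimal h1 hcl

end abstractalg

variable (F : Submodule ℂ H) [F.HasOrthogonalProjection]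

/-- the Toeplitz operator `T_a g = P_F (a g)` on the subspace `F` -/
def Toep (a : ℂ → ℂ) : F →L[ℂ] F :=
  F.orthogonalProjectionOnto ∘L M a ∘L F.subtypeL

/-- the band-dominated operators on `F`: those `T` for which `T P_F`, as an operator on
`L²(ℂ, gm)`, is band-dominated -/
def BandDom : Set (F →L[ℂ] F) :=
  {T | F.subtypeL ∘L T ∘L F.orthogonalProjectionOnto ∈ BDO}

variable [CompleteSpace F]

/-- the C*-algebra generated by the Toeplitz operators on `F` with bounded symbols -/
def ToepAlg : StarSubalgebra ℂ (F →L[ℂ] F) :=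
  genAlg (E := F) {T | ∃ a : ℂ → ℂ, Bdm a ∧ T = Toep F a}

/-- the corner algebra of operators on `H` -/
def corner : Set (H →L[ℂ] H) :=
  {A | F.orthogonalProjectionOnto ∘L A ∘L F.subtypeL ∈ ToepAlg F ∧
    F.starProjection ∘L A ∘L F.starProjection = A}

theorem sp_eq (v : H) : F.starProjection v = F.subtypeL (F.orthogonalProjectionOnto v) := rfl

theorem onto_sub (v : F) : F.orthogonalProjectionOnto (F.subtypeL v) = v :=
  F.orthogonalProjectionOnto_mem_subspace_eq_self v

theorem sp_sp (v : H) : F.starProjection (F.starProjection v) = F.starProjection v := by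
  rw [sp_eq, sp_eq, onto_sub]

theorem sp_sub (v : F) : F.starProjection (F.subtypeL v) = F.subtypeL v := by
  rw [sp_eq, onto_sub]

theorem onto_sp (v : H) :
    F.orthogonalProjectionOnto (F.starProjection v) = F.orthogonalProjectionOnto v := by
  rw [sp_eq, onto_sub]

theorem Toep_mem {a : ℂ → ℂ} (ha : Bdm a) : Toep F a ∈ ToepAlg F :=
  genAlg_sub (E := F) _ ⟨a, ha, rfl⟩

/-- `T ↦ ι T p` as a continuous linear map -/
theorem cont_up : Continuous
    (fun T : F →L[ℂ] F => F.subtypeL ∘L T ∘L F.orthogonalProjectionOnto) := by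
  fun_prop

theorem cont_down : Continuous
    (fun A : H →L[ℂ] H => F.orthogonalProjectionOnto ∘L A ∘L F.subtypeL) := by
  fun_prop

/-- easy inclusion -/
theorem ToepAlg_le (hBDO : P_BDO) (hP : F.starProjection ∈ BDO) :
    (ToepAlg F : Set (F →L[ℂ] F)) ⊆ BandDom F := by
  obtain ⟨hmul, hadj, hM, hadd, hsmul⟩ := hBDO
  refine genAlg_min (E := F) _ (BandDom F) ?_ ?_ ?_ ?_ ?_ ?_
  · have : BandDom F =
        (fun T : F →L[ℂ] F => F.subtypeL ∘L T ∘L F.orthogonalProjectionOnto) ⁻¹' BDO := rfl
    rw [this]
    exact isClosed_closure.preimage (cont_up F)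
  · rintro T ⟨a, ha, rfl⟩
    exact hmul _ hP _ (hmul _ (hM a ha) _ hP)
  · intro c
    have h := hsmul c _ hP
    change _ ∈ BDO
    convert h using 1
    ext1 v
    change F.subtypeL (c • (F.orthogonalProjectionOnto v)) = c • F.starProjection v
    rw [map_smul]
    rfl
  · intro S hS T hT
    have h := hadd _ hS _ hT
    change _ ∈ BDO
    convert h using 1
    ext1 v
    change F.subtypeL (S (F.orthogonalProjectionOnto v) + T (F.orthogonalProjectionOnto v)) =
      F.subtypeL (S (F.orthogonalProjectionOnto v)) + F.subtypeL (T (F.orthogonalProjectionOnto v))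
    rw [map_add]
  · intro S hS T hT
    have h := hmul _ hS _ hT
    change _ ∈ BDO
    convert h using 1
    ext1 v
    change F.subtypeL (S (T (F.orthogonalProjectionOnto v))) =
      F.subtypeL (S (F.orthogonalProjectionOnto
        (F.subtypeL (T (F.orthogonalProjectionOnto v)))))
    rw [onto_sub]
  · intro T hT
    have h := hadj _ hT
    change _ ∈ BDO
    convert h using 1
    apply ContinuousLinearMap.ext
    intro v
    apply ext_inner_left ℂ
    intro u
    rw [ContinuousLinearMap.adjoint_inner_right]
    change inner ℂ u (F.subtypeL ((ContinuousLinearMap.adjoint T) (F.orthogonalProjectionOnto v))) =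
      inner ℂ (F.subtypeL (T (F.orthogonalProjectionOnto u))) v
    have e1 : inner ℂ (F.subtypeL (T (F.orthogonalProjectionOnto u))) v =
        inner ℂ (T (F.orthogonalProjectionOnto u)) (F.orthogonalProjectionOnto v) := by
      rw [← sp_sub, F.inner_starProjection_left_eq_right]
      rfl
    have e2 : inner ℂ u (F.subtypeL
          ((ContinuousLinearMap.adjoint T) (F.orthogonalProjectionOnto v))) =
        inner ℂ (F.orthogonalProjectionOnto u)
          ((ContinuousLinearMap.adjoint T) (F.orthogonalProjectionOnto v)) := by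
      rw [← sp_sub, ← F.inner_starProjection_left_eq_right]
      rfl
    rw [e1, e2, ContinuousLinearMap.adjoint_inner_right]

/-- the corner set is a closed algebra containing the Toeplitz operators -/
theorem corner_closed : IsClosed (corner F) := by
  have h1 : IsClosed (ToepAlg F : Set (F →L[ℂ] F)) := genAlg_closed (E := F) _
  have h2 : Continuous (fun A : H →L[ℂ] H => F.starProjection ∘L A ∘L F.starProjection) := by
    fun_prop
  exact (h1.preimage (cont_down F)).inter (isClosed_eq h2 continuous_id)

theorem corner_add {A B : H →L[ℂ] H} (hA : A ∈ corner F) (hB : B ∈ corner F) :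
    A + B ∈ corner F := by
  refine ⟨?_, ?_⟩
  · have e : F.orthogonalProjectionOnto ∘L (A + B) ∘L F.subtypeL =
        (F.orthogonalProjectionOnto ∘L A ∘L F.subtypeL) +
          (F.orthogonalProjectionOnto ∘L B ∘L F.subtypeL) := by
      apply ContinuousLinearMap.ext
      intro v
      change F.orthogonalProjectionOnto (A (F.subtypeL v) + B (F.subtypeL v)) = _
      rw [map_add]
      rfl
    rw [e]
    exact genAlg_add (E := F) _ hA.1 hB.1
  · conv_rhs => rw [← hA.2, ← hB.2]
    ext1 v
    simp

theorem corner_smul (c : ℂ) {A : H →L[ℂ] H} (hA : A ∈ corner F) : c • A ∈ corner F := by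
  refine ⟨?_, ?_⟩
  · have e : F.orthogonalProjectionOnto ∘L (c • A) ∘L F.subtypeL =
        c • (F.orthogonalProjectionOnto ∘L A ∘L F.subtypeL) := by
      apply ContinuousLinearMap.ext
      intro v
      change F.orthogonalProjectionOnto (c • A (F.subtypeL v)) = _
      rw [map_smul]
      rfl
    rw [e]
    exact genAlg_smul (E := F) _ c hA.1
  · conv_rhs => rw [← hA.2]
    ext1 v
    simp

theorem corner_mul {A B : H →L[ℂ] H} (hA : A ∈ corner F) (hB : B ∈ corner F) :
    A ∘L B ∈ corner F := by
  have hA' : ∀ v, A v = F.starProjection (A (F.starProjection v)) := fun v => by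
    conv_lhs => rw [← hA.2]
    rfl
  have hB' : ∀ v, B v = F.starProjection (B (F.starProjection v)) := fun v => by
    conv_lhs => rw [← hB.2]
    rfl
  refine ⟨?_, ?_⟩
  · have e : F.orthogonalProjectionOnto ∘L (A ∘L B) ∘L F.subtypeL =
        (F.orthogonalProjectionOnto ∘L A ∘L F.subtypeL) ∘L
          (F.orthogonalProjectionOnto ∘L B ∘L F.subtypeL) := by
      apply ContinuousLinearMap.ext
      intro v
      change F.orthogonalProjectionOnto (A (B (F.subtypeL v))) =
        F.orthogonalProjectionOnto (A (F.subtypeL (F.orthogonalProjectionOnto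
        (B (F.subtypeL v)))))
      rw [← sp_eq, hB' (F.subtypeL v), sp_sp]
    rw [e]
    exact genAlg_mul (E := F) _ hA.1 hB.1
  · ext1 v
    change F.starProjection (A (B (F.starProjection v))) = A (B v)
    have e1 : B (F.starProjection v) = B v := by
      rw [hB' (F.starProjection v), sp_sp, ← hB' v]
    rw [e1, hA' (B v), sp_sp]

theorem corner_top {a : ℂ → ℂ} (ha : Bdm a) :
    F.starProjection ∘L M a ∘L F.starProjection ∈ corner F := by
  refine ⟨?_, ?_⟩
  · have e : F.orthogonalProjectionOnto ∘L (F.starProjection ∘L M a ∘L F.starProjection) ∘L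
        F.subtypeL = Toep F a := by
      apply ContinuousLinearMap.ext
      intro v
      change F.orthogonalProjectionOnto (F.starProjection (M a (F.starProjection (F.subtypeL v)))) =
        F.orthogonalProjectionOnto (M a (F.subtypeL v))
      rw [onto_sp, sp_sub]
    rw [e]
    exact Toep_mem F ha
  · ext1 v
    change F.starProjection (F.starProjection (M a (F.starProjection (F.starProjection v)))) =
      F.starProjection (M a (F.starProjection v))
    rw [sp_sp, sp_sp]

/-- the transfer: if every band-dominated corner operator is in the corner algebra, then all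
band-dominated operators on `F` are in the C*-algebra generated by the Toeplitz operators -/
theorem transfer (hcore : ∀ A : H →L[ℂ] H, F.starProjection ∘L A ∘L F.starProjection = A →
      A ∈ BDO → A ∈ corner F) : BandDom F ⊆ ToepAlg F := by
  intro T hT
  have h1 := (hcore (F.subtypeL ∘L T ∘L F.orthogonalProjectionOnto) (by
    ext1 v
    change F.starProjection (F.subtypeL (T (F.orthogonalProjectionOnto (F.starProjection v)))) =
      F.subtypeL (T (F.orthogonalProjectionOnto v))
    rw [sp_sub, onto_sp]) hT).1
  have e : T = F.orthogonalProjectionOnto ∘L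
      (F.subtypeL ∘L T ∘L F.orthogonalProjectionOnto) ∘L F.subtypeL := by
    apply ContinuousLinearMap.ext
    intro v
    change T v = F.orthogonalProjectionOnto (F.subtypeL (T (F.orthogonalProjectionOnto
      (F.subtypeL v))))
    rw [onto_sub, onto_sub]
  rw [e]
  exact h1

end

end TP
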