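import Pool.Agent.W2helper17.TP.Stm

/-!
# Project TP, part 2: the full polyanalytic Fock space `F²_n`
-/

namespace TP

open MeasureTheory Complex
open scoped ENNReal

noncomputable section

/-- `∑_{j < n} h_j(z) \bar z^j` -/
def pa (n : ℕ) (h : ℕ → ℂ → ℂ) (z : ℂ) : ℂ :=
  ∑ j ∈ Finset.range n, h j z * (starRingEnd ℂ z) ^ j

/-- the polyanalytic Fock space `F²_n`: the elements of `L²(ℂ, gm)` of the form
`∑_{j < n} h_j(z) \bar z^j` with entire `h_j` -/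
def Poly (n : ℕ) : Submodule ℂ H where
  carrier := {f | ∃ h : ℕ → ℂ → ℂ, (∀ j, Differentiable ℂ (h j)) ∧ f =ᵐ[gm] pa n h}
  add_mem' := by
    rintro f g ⟨h₁, hh₁, e₁⟩ ⟨h₂, hh₂, e₂⟩
    refine ⟨fun j u => h₁ j u + h₂ j u, fun j => (hh₁ j).add (hh₂ j), ?_⟩
    filter_upwards [Lp.coeFn_add f g, e₁, e₂] with z h1 h2 h3
    rw [h1, Pi.add_apply, h2, h3]
    unfold pa
    rw [← Finset.sum_add_distrib]
    refine Finset.sum_congr rfl fun j _ => ?_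
    ring
  zero_mem' := by
    refine ⟨fun _ _ => 0, fun _ => differentiable_const _, ?_⟩
    filter_upwards [Lp.coeFn_zero ℂ 2 gm] with z hz
    rw [hz]
    simp [pa]
  smul_mem' := by
    rintro c f ⟨h, hh, e⟩
    refine ⟨fun j u => c * h j u, fun j => (hh j).const_mul c, ?_⟩
    filter_upwards [Lp.coeFn_smul c f, e] with z h1 h2
    rw [h1, Pi.smul_apply, h2, smul_eq_mul]
    unfold pa
    rw [Finset.mul_sum]
    refine Finset.sum_congr rfl fun j _ => ?_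
    ring

/-- PIECE REPn. The kernel of `F²_n` at `0`: `K(z) = q(|z|²)`,
`q(t) = L^{(1)}_{n-1}(t) = ∑_i C(n,i+1) (-t)^i / i!`, which has
`∫_0^∞ t^j q(t) e^{-t} dt = δ_{j0}` for `j < n`. (The circle mean of `pa n h` at radius `r` is
`∑_j r^{2j} h_j^{(j)}(0)/j!`.) -/
def P_REPn : Prop := ∀ n : ℕ, 0 < n → ∃ (K : ℂ → ℂ) (κ : ℝ), 0 < κ ∧ Continuous K ∧
  (∃ (C : ℝ) (N : ℕ), ∀ z, ‖K z‖ ≤ C * (1 + ‖z‖) ^ N) ∧
  (∀ᵐ z ∂(volume : Measure ℂ), K z ≠ 0) ∧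
  (∃ h : ℕ → ℂ → ℂ, (∀ j, Differentiable ℂ (h j)) ∧ ∀ z, K z = pa n h z) ∧
  ∀ h : ℕ → ℂ → ℂ, (∀ j, Differentiable ℂ (h j)) → MemLp (pa n h) 2 gm →
    ∫ z, starRingEnd ℂ (K z) * pa n h z ∂gm = κ * pa n h 0

/-- PIECE CLOn. `F²_n` is closed and invariant under the Weyl operators (and they map
representatives to representatives). For closedness: `f(w) = c e^{|w|²/2} ⟪W_w K, f⟫` for
`f ∈ F²_n`, and for every `f ∈ L²` the right hand side is polyanalytic in `w`. -/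
def P_CLOn : Prop := ∀ n : ℕ, IsClosed (Poly n : Set H) ∧
  (∀ w, ∀ f ∈ Poly n, W w f ∈ Poly n) ∧
  ∀ (h : ℕ → ℂ → ℂ), (∀ j, Differentiable ℂ (h j)) → ∀ w : ℂ,
    ∃ h' : ℕ → ℂ → ℂ, (∀ j, Differentiable ℂ (h' j)) ∧
      ∀ z, wfac w z * pa n h (z - w) = pa n h' z

end

end TP
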