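import Pool.Agent.W2helper17.TP.Clo

namespace TP

open MeasureTheory Complex Filter
open scoped ENNReal Topology

noncomputable section

theorem piece_CLO (hOM : P_OM) (hPOL : P_POL) : P_CLO := by
  intro j
  refine ⟨?_, fun w f hf => Fock_W w hf⟩
  have hm := om_memLp hOM hPOL j
  obtain ⟨c, hc0, hc⟩ := (hOM j).2
  apply IsSeqClosed.isClosed
  intro f f0 hf hlim
  choose g hg e using hf
  set Ω : H := hm.toLp _ with hΩ
  set g0 : ℂ → ℂ := fun ζ => c⁻¹ * (exp ((‖ζ‖ ^ 2 / 2 : ℝ)) * inner ℂ (W ζ Ω) f0) with hg0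
  have hgn : ∀ n ζ, g n ζ = c⁻¹ * (exp ((‖ζ‖ ^ 2 / 2 : ℝ)) * inner ℂ (W ζ Ω) (f n)) := by
    intro n ζ
    rw [transform hm hc (hg n) (e n) ζ, ← mul_assoc (exp _), mul_comm (exp _) c,
      mul_assoc c, ← mul_assoc c⁻¹, inv_mul_cancel₀ hc0, one_mul, ← mul_assoc, ← Complex.exp_add]
    simp
  have hunif : TendstoLocallyUniformlyOn g g0 atTop Set.univ := by
    rw [tendstoLocallyUniformlyOn_iff_forall_isCompact isOpen_univ]
    intro K _ hK
    rw [Metric.tendstoUniformlyOn_iff]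
    intro ε hε
    obtain ⟨R, hR⟩ := hK.isBounded.subset_closedBall (0 : ℂ)
    set B : ℝ := ‖c⁻¹‖ * (Real.exp (R ^ 2 / 2) * ‖Ω‖) with hB
    have hB0 : 0 ≤ B := by positivity
    have h1 : Tendsto (fun n => B * ‖f0 - f n‖) atTop (𝓝 0) := by
      have : Tendsto (fun n => ‖f0 - f n‖) atTop (𝓝 0) := by
        have h := (tendsto_const_nhds (x := f0)).sub hlim
        rw [sub_self] at h
        simpa using h.norm
      simpa using this.const_mul B
    filter_upwards [h1.eventually_lt_const hε] with n hn ζ hζ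
    refine lt_of_le_of_lt ?_ hn
    rw [dist_eq_norm, hgn n ζ, hg0]
    have h2 : c⁻¹ * (exp ((‖ζ‖ ^ 2 / 2 : ℝ)) * inner ℂ (W ζ Ω) f0) -
        c⁻¹ * (exp ((‖ζ‖ ^ 2 / 2 : ℝ)) * inner ℂ (W ζ Ω) (f n)) =
        c⁻¹ * (exp ((‖ζ‖ ^ 2 / 2 : ℝ)) * inner ℂ (W ζ Ω) (f0 - f n)) := by
      rw [inner_sub_right]; ring
    simp only
    rw [h2, norm_mul, norm_mul, Complex.norm_exp, Complex.ofReal_re, hB, mul_assoc, mul_assoc]
    have hζR : ‖ζ‖ ≤ R := by simpa using hR hζ
    have h3 : ‖inner ℂ (W ζ Ω) (f0 - f n)‖ ≤ ‖Ω‖ * ‖f0 - f n‖ := by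
      have := norm_inner_le_norm (𝕜 := ℂ) (W ζ Ω) (f0 - f n)
      rwa [(W ζ).norm_map] at this
    have h4 : Real.exp (‖ζ‖ ^ 2 / 2) ≤ Real.exp (R ^ 2 / 2) := by
      gcongr
    gcongr
  have hg0d : Differentiable ℂ g0 := by
    rw [← differentiableOn_univ]
    exact hunif.differentiableOn (Eventually.of_forall fun m => (hg m).differentiableOn)
      isOpen_univ
  -- pointwise convergence of `tp j (g n)`
  have hpt : ∀ z, Tendsto (fun n => tp j (g n) z) atTop (𝓝 (tp j g0 z)) := by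
    intro z
    unfold tp
    refine Tendsto.const_mul _ (Tendsto.const_mul _ ?_)
    refine tendsto_iteratedDeriv j (F := fun n u => exp (-(u * starRingEnd ℂ z)) * g n u)
      (fun m => entire_aux (hg m) _) ?_ z
    -- product with a fixed continuous function
    have hE : TendstoLocallyUniformlyOn (fun (_ : ℕ) (u : ℂ) => exp (-(u * starRingEnd ℂ z)))
        (fun u => exp (-(u * starRingEnd ℂ z))) atTop Set.univ := by
      intro u hu x _
      exact ⟨Set.univ, Filter.univ_mem, Eventually.of_forall fun n y _ => refl_mem_uniformity hu⟩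
    rw [tendstoLocallyUniformlyOn_iff_forall_isCompact isOpen_univ] at hunif hE ⊢
    intro K hKs hK
    have h1 := hunif K hKs hK
    rw [Metric.tendstoUniformlyOn_iff] at h1 ⊢
    have hcont : ContinuousOn (fun u : ℂ => exp (-(u * starRingEnd ℂ z))) K := by fun_prop
    obtain ⟨B, hB⟩ := hK.exists_bound_of_continuousOn hcont
    intro ε hε
    have hB1 : 0 < |B| + 1 := by positivity
    filter_upwards [h1 (ε / (|B| + 1)) (by positivity)] with n hn u hu
    have h2 := hn u hu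
    rw [dist_eq_norm] at h2 ⊢
    rw [← mul_sub, norm_mul]
    calc ‖exp (-(u * starRingEnd ℂ z))‖ * ‖g0 u - g n u‖
        ≤ (|B|) * ‖g0 u - g n u‖ := by
          gcongr
          exact (hB u hu).trans (le_abs_self B)
      _ ≤ (|B| + 1) * ‖g0 u - g n u‖ := by gcongr; linarith
      _ < (|B| + 1) * (ε / (|B| + 1)) := by gcongr
      _ = ε := by field_simp
  -- a.e. convergence of a subsequence
  have hmeas : TendstoInMeasure gm (fun n => (f n : ℂ → ℂ)) atTop (f0 : ℂ → ℂ) :=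
    tendstoInMeasure_of_tendsto_Lp hlim
  obtain ⟨ns, hns, hae⟩ := hmeas.exists_seq_tendsto_ae
  refine ⟨g0, hg0d, ?_⟩
  have hall : ∀ᵐ z ∂gm, ∀ n, f n z = tp j (g n) z := ae_all_iff.mpr fun n => e n
  filter_upwards [hae, hall] with z h1 h2
  have h3 := (hpt z).comp hns.tendsto_atTop
  refine tendsto_nhds_unique h1 (h3.congr fun n => ?_)
  simp only [Function.comp]
  rw [h2]

end

end TP
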