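import Pool.Agent.W2helper17.TP.Cov

namespace TP

open MeasureTheory Complex Filter
open scoped ENNReal Topology

noncomputable section

theorem wfac_diff (w : ℂ) : Differentiable ℂ (wfac w) := by
  unfold wfac
  fun_prop

theorem shift_diff {g : ℂ → ℂ} (hg : Differentiable ℂ g) (w : ℂ) :
    Differentiable ℂ (fun u => wfac w u * g (u - w)) :=
  (wfac_diff w).mul (hg.comp (differentiable_id.sub_const w))

theorem Fock_W {j : ℕ} (w : ℂ) {f : H} (hf : f ∈ Fock j) : W w f ∈ Fock j := by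
  obtain ⟨g, hg, e⟩ := hf
  refine ⟨_, shift_diff hg w, ?_⟩
  filter_upwards [W_congr w e] with z hz
  rw [hz, piece_COV j g hg w z]

/-- the shifted representative -/
theorem W_rep {j : ℕ} (w : ℂ) {f : H} {g : ℂ → ℂ} (hg : Differentiable ℂ g)
    (e : f =ᵐ[gm] tp j g) : W w f =ᵐ[gm] tp j (fun u => wfac w u * g (u - w)) := by
  filter_upwards [W_congr w e] with z hz
  rw [hz, piece_COV j g hg w z]

theorem om_memLp (hOM : P_OM) (hPOL : P_POL) (j : ℕ) : MemLp (tp j (fun _ => 1)) 2 gm := by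
  have h := (hOM j).1
  refine hPOL _ ?_ ⟨1, j, fun z => ?_⟩
  · have : tp j (fun _ => 1) = fun z => (1 / (j.factorial : ℂ)) * (-(starRingEnd ℂ z)) ^ j :=
      funext h
    rw [this]
    fun_prop
  · rw [h z, norm_mul, norm_pow, norm_neg, RCLike.norm_conj, norm_div, norm_one]
    have h1 : (1 : ℝ) ≤ ‖(j.factorial : ℂ)‖ := by
      rw [Complex.norm_natCast]
      exact_mod_cast Nat.one_le_iff_ne_zero.mpr (Nat.factorial_ne_zero j)
    have h2 : 1 / ‖(j.factorial : ℂ)‖ ≤ 1 := by
      rw [div_le_one (by linarith)]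
      exact h1
    have h3 : ‖z‖ ^ j ≤ (1 + ‖z‖) ^ j := by gcongr; linarith
    exact mul_le_mul h2 h3 (by positivity) (by norm_num)

/-- the coherent state transform on `Fock j` -/
theorem transform {j : ℕ} (hm : MemLp (tp j (fun _ => 1)) 2 gm) {c : ℂ}
    (hc : ∀ g : ℂ → ℂ, Differentiable ℂ g → MemLp (tp j g) 2 gm →
      ∫ z, starRingEnd ℂ (tp j (fun _ => 1) z) * tp j g z ∂gm = c * g 0)
    {f : H} {g : ℂ → ℂ} (hg : Differentiable ℂ g) (e : f =ᵐ[gm] tp j g) (ζ : ℂ) :
    inner ℂ (W ζ (hm.toLp _)) f = c * (exp (-(‖ζ‖ ^ 2 / 2 : ℝ)) * g ζ) := by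
  rw [W_adj]
  have e1 := W_rep (-ζ) hg e
  have hmem : MemLp (tp j (fun u => wfac (-ζ) u * g (u - -ζ))) 2 gm :=
    (memLp_congr_ae e1).mp (Lp.memLp _)
  have h2 := hc _ (shift_diff hg (-ζ)) hmem
  rw [L2.inner_def]
  have h3 : ∫ a, inner ℂ ((hm.toLp (tp j (fun _ => 1)) : H) a) ((W (-ζ) f) a) ∂gm =
      ∫ z, starRingEnd ℂ (tp j (fun _ => 1) z) *
        tp j (fun u => wfac (-ζ) u * g (u - -ζ)) z ∂gm := by
    apply integral_congr_ae
    filter_upwards [hm.coeFn_toLp, e1] with z h1 h2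
    rw [h1, h2, RCLike.inner_apply']
  rw [h3, h2]
  congr 2
  · simp [wfac]
  · simp

/-- locally uniform convergence of entire functions implies convergence of all derivatives -/
theorem tendsto_iteratedDeriv (n : ℕ) : ∀ {F : ℕ → ℂ → ℂ} {G : ℂ → ℂ},
    (∀ m, Differentiable ℂ (F m)) → TendstoLocallyUniformlyOn F G atTop Set.univ →
    ∀ z, Tendsto (fun m => iteratedDeriv n (F m) z) atTop (𝓝 (iteratedDeriv n G z)) := by
  induction n with
  | zero =>
    intro F G hF h z
    simp only [iteratedDeriv_zero]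
    exact h.tendsto_at (Set.mem_univ z)
  | succ n ih =>
    intro F G hF h z
    simp only [iteratedDeriv_succ']
    refine ih (F := fun m => deriv (F m)) (fun m => ?_) ?_ z
    · exact (hF m).contDiff.differentiable_deriv_two
    · exact h.deriv (Eventually.of_forall fun m => (hF m).differentiableOn) isOpen_univ

end

end TP
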