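import Pool.Agent.W2helper17.TP.Cov
import Pool.Agent.W2helper17.TP.Clo

namespace TP

open MeasureTheory Complex Filter
open scoped ENNReal Topology

noncomputable section

theorem integral_gm (F : ℂ → ℂ) :
    ∫ z, F z ∂gm = (1 / Real.pi : ℝ) * ∫ z : ℂ, (Real.exp (-‖z‖ ^ 2) : ℝ) * F z := by
  rw [gm_def, integral_withDensity_eq_integral_toReal_smul dens_meas
    (Eventually.of_forall fun z => ENNReal.ofReal_lt_top), ← integral_const_mul]
  congr 1
  funext z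
  unfold dens
  rw [ENNReal.toReal_ofReal (by positivity), Complex.real_smul]
  push_cast
  ring

/-- values of elements of `Fock j` through the coherent states -/
theorem value {j : ℕ} {K : ℂ → ℂ} (hK : MemLp K 2 gm) {κ : ℝ}
    (hc : ∀ g : ℂ → ℂ, Differentiable ℂ g → MemLp (tp j g) 2 gm →
      ∫ z, starRingEnd ℂ (K z) * tp j g z ∂gm = κ * tp j g 0)
    {f : H} {g : ℂ → ℂ} (hg : Differentiable ℂ g) (e : f =ᵐ[gm] tp j g) (ζ : ℂ) :
    inner ℂ (W ζ (hK.toLp _)) f = κ * (Real.exp (-‖ζ‖ ^ 2 / 2) * tp j g ζ) := by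
  rw [W_adj]
  have e1 := W_rep (-ζ) hg e
  have hmem : MemLp (tp j (fun u => wfac (-ζ) u * g (u - -ζ))) 2 gm :=
    (memLp_congr_ae e1).mp (Lp.memLp _)
  have h2 := hc _ (shift_diff hg (-ζ)) hmem
  rw [L2.inner_def]
  have h3 : ∫ a, inner ℂ ((hK.toLp K : H) a) ((W (-ζ) f) a) ∂gm =
      ∫ z, starRingEnd ℂ (K z) *
        tp j (fun u => wfac (-ζ) u * g (u - -ζ)) z ∂gm := by
    apply integral_congr_ae
    filter_upwards [hK.coeFn_toLp, e1] with z h1 h2
    rw [h1, h2, RCLike.inner_apply']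
  rw [h3, h2, ← piece_COV j g hg (-ζ) 0]
  congr 2
  · simp only [wfac, norm_neg, zero_mul, zero_sub]
    rw [← Complex.ofReal_neg, ← Complex.ofReal_exp]
    congr 2
    ring
  · simp

theorem piece_RES (hREP : P_REP) (hOM : P_OM) (hPOL : P_POL) : P_RES := by
  intro j
  obtain ⟨K, κ, hκ, hcont, hpol, ⟨gK, hgK, hKg⟩, hrep⟩ := hREP j
  have hK : MemLp K 2 gm := hPOL K hcont hpol
  have hmem : hK.toLp K ∈ Fock j := by
    refine ⟨gK, hgK, ?_⟩
    filter_upwards [hK.coeFn_toLp] with z hz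
    rw [hz, hKg z]
  have hnz : 0 < ‖hK.toLp K‖ ^ 2 := by
    -- the function `K` does not vanish identically: reproducing formula
    by_contra hcon
    have h0 : hK.toLp K = 0 := by
      have h1 : ‖hK.toLp K‖ ^ 2 = 0 := le_antisymm (not_lt.mp hcon) (by positivity)
      exact norm_eq_zero.mp (pow_eq_zero_iff (two_ne_zero) |>.mp h1)
    have hm := om_memLp hOM hPOL j
    have hd : Differentiable ℂ (fun _ : ℂ => (1 : ℂ)) := differentiable_const _
    have e1 := W_rep (1 : ℂ) hd hm.coeFn_toLp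
    have h2 := value hK hrep (shift_diff hd 1) e1 0
    rw [h0, map_zero, inner_zero_left, ← piece_COV j _ hd 1 0, (hOM j).1] at h2
    have hk : (κ : ℂ) ≠ 0 := by exact_mod_cast hκ.ne'
    have hf : ((j.factorial : ℕ) : ℂ) ≠ 0 := by exact_mod_cast Nat.factorial_ne_zero j
    have h3 : (κ : ℂ) * ((Real.exp (-‖(0 : ℂ)‖ ^ 2 / 2) : ℝ) *
        (wfac 1 0 * (1 / (j.factorial : ℂ) * (-(starRingEnd ℂ) (0 - 1)) ^ j))) ≠ 0 := by
      refine mul_ne_zero hk (mul_ne_zero ?_ (mul_ne_zero ?_ (mul_ne_zero ?_ ?_)))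
      · exact_mod_cast (Real.exp_pos _).ne'
      · unfold wfac
        exact Complex.exp_ne_zero _
      · exact one_div_ne_zero hf
      · simp
    exact h3 h2.symm
  refine ⟨K, hK, 1 / (Real.pi * κ ^ 2), ‖hK.toLp K‖ ^ 2, by positivity, hnz, hcont, hpol, hmem,
    rfl, ?_⟩
  intro P hP a ha f h
  obtain ⟨hP1, hP2, hP3⟩ := hP
  have hcoh : ∀ w f, inner ℂ (W w (hK.toLp K)) (P f) = inner ℂ (W w (hK.toLp K)) f := by
    intro w f
    rw [← hP3, hP2 _ (Fock_W w hmem)]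
  obtain ⟨g₁, hg₁, e₁⟩ := hP1 f
  obtain ⟨g₂, hg₂, e₂⟩ := hP1 h
  have v₁ := fun ζ => value hK hrep hg₁ e₁ ζ
  have v₂ := fun ζ => value hK hrep hg₂ e₂ ζ
  rw [← hP3, L2.inner_def]
  have h3 : ∫ z, inner ℂ ((P h) z) ((M a (P f)) z) ∂gm =
      ∫ z, starRingEnd ℂ (tp j g₂ z) * (a z * tp j g₁ z) ∂gm := by
    apply integral_congr_ae
    filter_upwards [e₁, e₂, M_coe ha (P f)] with z h1 h2 h3
    rw [h3, h2, h1, RCLike.inner_apply']
  rw [h3, integral_gm, ← integral_const_mul, ← integral_const_mul]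
  congr 1
  funext z
  rw [← hcoh z f, v₁ z, ← inner_conj_symm h, ← hcoh z h, v₂ z]
  have hexp : (Real.exp (-‖z‖ ^ 2) : ℂ) =
      (Real.exp (-‖z‖ ^ 2 / 2) : ℂ) * (Real.exp (-‖z‖ ^ 2 / 2) : ℂ) := by
    rw [← Complex.ofReal_mul, ← Real.exp_add]
    congr 2
    ring
  have hk : (κ : ℂ) ≠ 0 := by exact_mod_cast hκ.ne'
  have hpi : (Real.pi : ℂ) ≠ 0 := by exact_mod_cast Real.pi_ne_zero
  rw [hexp]
  simp only [map_mul, Complex.conj_ofReal]
  push_cast
  field_simp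

end

end TP
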