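import Pool.Agent.W2helper17.TP.Final

/-!
# The statement in small steps
-/

namespace TP

open MeasureTheory Complex Filter
open scoped ENNReal Topology

noncomputable section

section abstractalg

variable {E : Type*} [NormedAddCommGroup E] [InnerProductSpace ℂ E] [CompleteSpace E]

/-- closed under sums -/
def CAdd (B : Set (E →L[ℂ] E)) : Prop := ∀ S ∈ B, ∀ T ∈ B, S + T ∈ B

/-- closed under scalar multiples -/
def CSmul (B : Set (E →L[ℂ] E)) : Prop := ∀ (c : ℂ), ∀ S ∈ B, c • S ∈ B

/-- closed under products -/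
def CMul (B : Set (E →L[ℂ] E)) : Prop := ∀ S ∈ B, ∀ T ∈ B, S ∘L T ∈ B

/-- closed under adjoints -/
def CAdj (B : Set (E →L[ℂ] E)) : Prop :=
  ∀ S ∈ B, ∀ T : E →L[ℂ] E, (∀ x y : E, inner ℂ (S x) y = inner ℂ x (T y)) → T ∈ B

/-- norm closed sets of bounded operators which are closed under sums, scalar multiples,
products and adjoints, that is C*-algebras of operators on `E` -/
def IsCStar (B : Set (E →L[ℂ] E)) : Prop := IsClosed B ∧ CAdd B ∧ CSmul B ∧ CMul B ∧ CAdj B

/-- the C*-algebra generated by a set of bounded operators: the intersection of all C*-algebras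
of operators containing the set -/
def genC (s : Set (E →L[ℂ] E)) : Set (E →L[ℂ] E) :=
  {T | ∀ B : Set (E →L[ℂ] E), IsCStar B → s ⊆ B → T ∈ B}

theorem genAlg_isCStar (s : Set (E →L[ℂ] E)) : IsCStar (genAlg s : Set (E →L[ℂ] E)) :=
  ⟨genAlg_closed s, fun _ hS _ hT => genAlg_add s hS hT, fun c _ hS => genAlg_smul s c hS,
    fun _ hS _ hT => genAlg_mul s hS hT, fun S hS T hT => by
      have h1 : T = star S := by
        apply ContinuousLinearMap.ext
        intro y
        apply ext_inner_left ℂ
        intro x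
        rw [ContinuousLinearMap.star_eq_adjoint, ContinuousLinearMap.adjoint_inner_right, hT]
      rw [h1]
      exact star_mem hS⟩

theorem genC_eq {s : Set (E →L[ℂ] E)} (h1 : ContinuousLinearMap.id ℂ E ∈ s) :
    genC s = (genAlg s : Set (E →L[ℂ] E)) := by
  apply Set.Subset.antisymm
  · intro T hT
    exact hT _ (genAlg_isCStar s) fun S hS => genAlg_sub s hS
  · intro T hT B hB hs
    obtain ⟨hcl, hadd, hsmul, hmul, hadj⟩ := hB
    refine genAlg_min s B hcl hs (fun c => hsmul c _ (hs h1)) hadd hmul (fun S hS => ?_) hT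
    exact hadj S hS _ fun x y => (ContinuousLinearMap.adjoint_inner_right S x y).symm

end abstractalg

/-- the subspace `F` of `L²(ℂ, gm)` as a Hilbert space of its own -/
def Sp (F : Submodule ℂ H) : Type := F

instance spN (F : Submodule ℂ H) : NormedAddCommGroup (Sp F) :=
  Submodule.normedAddCommGroup F

instance spI (F : Submodule ℂ H) : InnerProductSpace ℂ (Sp F) :=
  Submodule.innerProductSpace F

instance spC (F : Submodule ℂ H) [h : CompleteSpace F] : CompleteSpace (Sp F) := h

/-- the inclusion of `F` into `L²(ℂ, gm)` -/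
def incl (F : Submodule ℂ H) : Sp F →L[ℂ] H := F.subtypeL

/-- the orthogonal projection of `L²(ℂ, gm)` onto the closed subspace `F` -/
def proj (F : Submodule ℂ H) [CompleteSpace F] : H →L[ℂ] Sp F := F.orthogonalProjectionOnto

/-- the Toeplitz operator `T_a g = P_F (a g)` on the closed subspace `F` -/
def toep (F : Submodule ℂ H) [CompleteSpace F] (a : ℂ → ℂ) : Sp F →L[ℂ] Sp F :=
  proj F ∘L M a ∘L incl F

/-- `T P_F` as an operator on `L²(ℂ, gm)` -/
def extOp (F : Submodule ℂ H) [CompleteSpace F] (T : Sp F →L[ℂ] Sp F) : H →L[ℂ] H :=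
  incl F ∘L T ∘L proj F

/-- `T` is band-dominated if `T P_F`, as an operator on `L²(ℂ, gm)`, is band-dominated -/
def IsBandDom (F : Submodule ℂ H) [CompleteSpace F] (T : Sp F →L[ℂ] Sp F) : Prop :=
  extOp F T ∈ BDO

/-- the set of Toeplitz operators on `F` with bounded symbols -/
def toepSet (F : Submodule ℂ H) [CompleteSpace F] : Set (Sp F →L[ℂ] Sp F) :=
  {S | ∃ a : ℂ → ℂ, Bdm a ∧ S = toep F a}

theorem id_mem (F : Submodule ℂ H) [CompleteSpace F] :
    ContinuousLinearMap.id ℂ (Sp F) ∈ toepSet F := by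
  refine ⟨fun _ => 1, ⟨measurable_const, 1, fun z => by simp⟩, ?_⟩
  apply ContinuousLinearMap.ext
  intro v
  change v = F.orthogonalProjectionOnto (M (fun _ => 1) (F.subtypeL v))
  have h1 : M (fun _ => 1) (F.subtypeL v) = F.subtypeL v := by
    apply Lp.ext
    filter_upwards [M_coe (a := fun _ => 1) ⟨measurable_const, 1, fun z => by simp⟩
      (F.subtypeL v)] with z hz
    rw [hz, one_mul]
  rw [h1, onto_sub]

theorem final_iff (F : Submodule ℂ H) [CompleteSpace F]
    (h : BandDom F = (ToepAlg F : Set (F →L[ℂ] F))) (T : Sp F →L[ℂ] Sp F) :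
    IsBandDom F T ↔ T ∈ genC (toepSet F) := by
  rw [genC_eq (id_mem F)]
  have h1 : IsBandDom F T ↔ T ∈ BandDom F := Iff.rfl
  rw [h1, h]
  exact Iff.rfl

end

end TP
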