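import Pool.Agent.W2helper17.TP.Clo

namespace TP

open MeasureTheory Complex Filter
open scoped ENNReal Topology

noncomputable section

/-- the character `z ↦ exp (z \bar ξ - \bar z ξ)` -/
def chr (ξ z : ℂ) : ℂ := exp (z * starRingEnd ℂ ξ - starRingEnd ℂ z * ξ)

theorem norm_chr (ξ z : ℂ) : ‖chr ξ z‖ = 1 := by
  unfold chr
  rw [Complex.norm_exp]
  have : (z * starRingEnd ℂ ξ - starRingEnd ℂ z * ξ).re = 0 := by
    simp only [Complex.sub_re, Complex.mul_re, Complex.conj_re, Complex.conj_im]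
    ring
  rw [this, Real.exp_zero]

theorem chr_cont (ξ : ℂ) : Continuous (chr ξ) := by
  unfold chr
  fun_prop

theorem chr_cont' (z : ℂ) : Continuous (fun ξ => chr ξ z) := by
  unfold chr
  fun_prop

theorem chr_bdm (ξ : ℂ) : Bdm (chr ξ) :=
  ⟨(chr_cont ξ).measurable, 1, fun z => (norm_chr ξ z).le⟩

theorem chr_zero (z : ℂ) : chr 0 z = 1 := by simp [chr]

theorem chr_add (ξ z w : ℂ) : chr ξ (z + w) = chr ξ z * chr ξ w := by
  unfold chr
  rw [← Complex.exp_add]
  congr 1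
  rw [map_add]
  ring

theorem coc_chr (ξ w : ℂ) : coc (-ξ) w * chr ξ w = coc w (-ξ) := by
  unfold coc chr
  rw [← Complex.exp_add]
  congr 1
  rw [map_neg]
  ring

/-- the opposite Weyl operator -/
def Vo (ξ : ℂ) (f : H) : H := W (-ξ) (M (chr ξ) f)

theorem Vo_W (ξ w : ℂ) (f : H) : Vo ξ (W w f) = W w (Vo ξ f) := by
  unfold Vo
  have h1 : M (chr ξ) (W w f) = chr ξ w • W w (M (chr ξ) f) := by
    rw [W_M (chr_bdm ξ) w f]
    apply Lp.ext
    filter_upwards [M_coe (chr_bdm ξ) (W w f), M_coe ((chr_bdm ξ).shift w) (W w f),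
      Lp.coeFn_smul (chr ξ w) (M (fun z => chr ξ (z - w)) (W w f))] with z h1 h2 h3
    rw [h1, h3, Pi.smul_apply, h2, smul_eq_mul, ← mul_assoc]
    congr 1
    rw [mul_comm, ← chr_add]
    congr 1
    ring
  rw [h1, map_smul, W_W, W_W, smul_smul, mul_comm, coc_chr, add_comm]

theorem P_W {j : ℕ} {P : H →L[ℂ] H} (hP : IsProjF j P) (w : ℂ) (f : H) :
    P (W w f) = W w (P f) := by
  obtain ⟨hP1, hP2, hP3⟩ := hP
  have h2 : P (W w (P f)) = W w (P f) := hP2 _ (Fock_W w (hP1 f))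
  rw [← h2]
  apply ext_inner_left ℂ
  intro h
  have h1 : P (W (-w) (P h)) = W (-w) (P h) := hP2 _ (Fock_W (-w) (hP1 h))
  rw [← hP3, ← hP3, W_adj', W_adj', ← hP3, h1]

/-- compressions of characters are multiples of Weyl operators -/
theorem chr_scalar (hSCHUR : P_SCHUR) {j : ℕ} {P : H →L[ℂ] H} (hP : IsProjF j P) (ξ : ℂ) :
    ∃ c : ℂ, ∀ f, P (M (chr ξ) (P f)) = c • W ξ (P f) := by
  obtain ⟨c, hc⟩ := hSCHUR j P ((W (-ξ)).toContinuousLinearMap ∘L M (chr ξ)) hP (by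
    intro w f
    have h1 : ∀ f : H, ((W (-ξ)).toContinuousLinearMap ∘L M (chr ξ)) f = Vo ξ f := fun f => rfl
    rw [h1, h1, Vo_W, P_W hP])
  refine ⟨c, fun f => ?_⟩
  have h1 : M (chr ξ) (P f) = W ξ (Vo ξ (P f)) := by
    unfold Vo
    rw [W_W_neg]
  rw [h1, P_W hP]
  have h2 : P (Vo ξ (P f)) = c • P f := hc f
  rw [h2, map_smul]

/-- the scalar does not vanish for small `ξ` -/
theorem chr_ne (hCONT : P_CONT) {j : ℕ} {P : H →L[ℂ] H} (u : H) (hu : u ≠ 0)
    (hPu : P u = u) (hP3 : ∀ f h, inner ℂ (P f) h = inner ℂ f (P h)) :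
    ∃ δ : ℝ, 0 < δ ∧ ∀ ξ : ℂ, ‖ξ‖ < δ → inner ℂ (W ξ u) (P (M (chr ξ) (P u))) ≠ 0 ∨
      P (W ξ u) ≠ W ξ u := by
  have h0 : Tendsto (fun ξ : ℂ => inner ℂ (W ξ u) (M (chr ξ) u)) (𝓝 0) (𝓝 (inner ℂ u u)) := by
    have e1 : ∀ ξ : ℂ, inner ℂ (W ξ u) (M (chr ξ) u) =
        inner ℂ (W ξ u - u) (M (chr ξ) u) + ∫ z, chr ξ z * (‖u z‖ ^ 2 : ℝ) ∂gm := by
      intro ξ
      rw [inner_sub_left]
      have : inner ℂ u (M (chr ξ) u) = ∫ z, chr ξ z * (‖u z‖ ^ 2 : ℝ) ∂gm := by
        rw [L2.inner_def]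
        apply integral_congr_ae
        filter_upwards [M_coe (chr_bdm ξ) u] with z hz
        rw [hz, RCLike.inner_apply']
        rw [mul_left_comm, mul_comm (starRingEnd ℂ (u z)), Complex.mul_conj,
          Complex.normSq_eq_norm_sq]
      rw [this]
      ring
    have e2 : inner ℂ u u = 0 + ∫ z, (‖u z‖ ^ 2 : ℝ) ∂gm := by
      rw [zero_add, L2.inner_def]
      rw [← integral_complex_ofReal]
      apply integral_congr_ae
      filter_upwards with z
      rw [RCLike.inner_apply, Complex.mul_conj, Complex.normSq_eq_norm_sq]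
    have e2' : inner ℂ u u = 0 + ∫ z, ((‖u z‖ ^ 2 : ℝ) : ℂ) ∂gm := by
      rw [e2, integral_complex_ofReal]
    simp_rw [e1]
    rw [e2']
    apply Tendsto.add
    · have hn : Tendsto (fun ξ : ℂ => ‖W ξ u - u‖ * ‖u‖) (𝓝 0) (𝓝 0) := by
        have h1 : Tendsto (fun ξ : ℂ => W ξ u - u) (𝓝 0) (𝓝 0) := by
          have := ((hCONT u).tendsto 0).sub_const u
          rwa [W_zero, sub_self] at this
        simpa using h1.norm.mul_const ‖u‖
      refine squeeze_zero_norm (fun ξ => ?_) hn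
      refine (norm_inner_le_norm _ _).trans ?_
      gcongr
      have := mulLin_bound (chr_bdm ξ) (C := 1) (fun z => (norm_chr ξ z).le) u
      rw [one_mul] at this
      refine le_trans (le_of_eq ?_) this
      unfold M
      rw [dif_pos (chr_bdm ξ)]
      rfl
    · have hint : Integrable (fun z => (‖u z‖ ^ 2 : ℝ)) gm := (Lp.memLp u).integrable_norm_pow
        (by norm_num)
      apply tendsto_integral_filter_of_dominated_convergence (fun z => (‖u z‖ ^ 2 : ℝ))
      · filter_upwards with ξ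
        exact (chr_cont ξ).aestronglyMeasurable.mul
          (Complex.continuous_ofReal.comp_aestronglyMeasurable hint.1)
      · filter_upwards with ξ
        filter_upwards with z
        rw [norm_mul, norm_chr, one_mul, Complex.norm_real, Real.norm_eq_abs,
          abs_of_nonneg (by positivity)]
      · exact hint
      · filter_upwards with z
        have h1 := ((chr_cont' z).tendsto 0).mul_const (((‖u z‖ ^ 2 : ℝ)) : ℂ)
        rw [chr_zero, one_mul] at h1
        exact h1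
  have hne : inner ℂ u u ≠ 0 := inner_self_ne_zero.mpr hu
  have h1 : ∀ᶠ ξ in 𝓝 (0 : ℂ), inner ℂ (W ξ u) (M (chr ξ) u) ≠ 0 :=
    h0.eventually_ne hne
  obtain ⟨δ, hδ, hball⟩ := Metric.eventually_nhds_iff.mp h1
  refine ⟨δ, hδ, fun ξ hξ => ?_⟩
  by_cases hq : P (W ξ u) = W ξ u
  · left
    rw [hPu, ← hP3, hq]
    exact hball (by rwa [dist_zero_right])
  · right
    exact hq

end

end TP
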