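import Pool.Agent.W2helper17.TP.Stm

namespace TP

open MeasureTheory Complex
open scoped ENNReal

noncomputable section

theorem piece_COV : P_COV := by
  intro j g hg w z
  unfold tp
  set F : ℂ → ℂ := fun u => exp (-(u * starRingEnd ℂ (z - w))) * g u with hF
  have h1 : (fun u => exp (-(u * starRingEnd ℂ z)) * (wfac w u * g (u - w))) =
      (fun u => exp (-(w * starRingEnd ℂ z) + (‖w‖ ^ 2 / 2 : ℝ)) * (F (u - w))) := by
    funext u
    simp only [hF, wfac]
    rw [← mul_assoc, ← mul_assoc, ← Complex.exp_add, ← Complex.exp_add]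
    congr 2
    have h1 : (((‖w‖ ^ 2 / 2 : ℝ)) : ℂ) = w * starRingEnd ℂ w / 2 := by
      rw [Complex.mul_conj, Complex.normSq_eq_norm_sq]
      push_cast
      ring
    rw [h1, map_sub]
    ring
  rw [h1, iteratedDeriv_const_mul_field, iteratedDeriv_comp_sub_const]
  have h2 : wfac w z * exp ((z - w) * starRingEnd ℂ (z - w)) =
      exp (z * starRingEnd ℂ z) * exp (-(w * starRingEnd ℂ z) + (‖w‖ ^ 2 / 2 : ℝ)) := by
    simp only [wfac]
    rw [← Complex.exp_add, ← Complex.exp_add]
    congr 1
    have h1 : (((‖w‖ ^ 2 / 2 : ℝ)) : ℂ) = w * starRingEnd ℂ w / 2 := by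
      rw [Complex.mul_conj, Complex.normSq_eq_norm_sq]
      push_cast
      ring
    rw [h1, map_sub]
    ring
  calc wfac w z * (1 / (j.factorial : ℂ) * (exp ((z - w) * starRingEnd ℂ (z - w)) *
        iteratedDeriv j F (z - w)))
      = 1 / (j.factorial : ℂ) * ((wfac w z * exp ((z - w) * starRingEnd ℂ (z - w))) *
        iteratedDeriv j F (z - w)) := by ring
    _ = _ := by rw [h2]; ring

end

end TP
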