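import Mathlib

/-!
# Toeplitz generation of band-dominated algebras on true polyanalytic Fock spaces: definitions
-/

namespace TP

open MeasureTheory Complex
open scoped ENNReal

noncomputable section

/-- the Gaussian measure `(1/π) exp(-|z|²) dz` on `ℂ` -/
def gm : Measure ℂ :=
  (volume : Measure ℂ).withDensity
    (fun z => ENNReal.ofReal (Real.exp (-‖z‖ ^ 2) / Real.pi))

/-- the Hilbert space `L²(ℂ, gm)` -/
abbrev H : Type := Lp ℂ 2 gm

/-- bounded Borel functions -/
def Bdm (a : ℂ → ℂ) : Prop := Measurable a ∧ ∃ C : ℝ, ∀ z, ‖a z‖ ≤ C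

theorem Bdm.memLp_mul {a : ℂ → ℂ} (ha : Bdm a) (f : H) :
    MemLp (fun z => a z * f z) 2 gm := by
  obtain ⟨C, hC⟩ := ha.2
  have h1 : MemLp (f : ℂ → ℂ) 2 gm := Lp.memLp f
  refine MemLp.of_le_mul (c := C) h1 (ha.1.aestronglyMeasurable.mul h1.1) ?_
  filter_upwards with z
  rw [norm_mul]
  exact mul_le_mul_of_nonneg_right (hC z) (norm_nonneg _)

/-- multiplication by the bounded Borel function `a`, as a linear map -/
def mulLin {a : ℂ → ℂ} (ha : Bdm a) : H →ₗ[ℂ] H where
  toFun f := (ha.memLp_mul f).toLp _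
  map_add' f g := by
    rw [← MemLp.toLp_add]
    apply MemLp.toLp_congr
    filter_upwards [Lp.coeFn_add f g] with z hz
    simp only [Pi.add_apply] at hz ⊢
    rw [hz]; ring
  map_smul' c f := by
    rw [RingHom.id_apply, ← MemLp.toLp_const_smul]
    apply MemLp.toLp_congr
    filter_upwards [Lp.coeFn_smul c f] with z hz
    simp only [Pi.smul_apply, smul_eq_mul] at hz ⊢
    rw [hz]; ring

theorem mulLin_bound {a : ℂ → ℂ} (ha : Bdm a) {C : ℝ} (hC : ∀ z, ‖a z‖ ≤ C) (f : H) :
    ‖mulLin ha f‖ ≤ C * ‖f‖ := by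
  apply Lp.norm_le_mul_norm_of_ae_le_mul
  filter_upwards [(ha.memLp_mul f).coeFn_toLp] with z hz
  have h2 : (mulLin ha f) z = a z * f z := hz
  rw [h2, norm_mul]
  exact mul_le_mul_of_nonneg_right (hC z) (norm_nonneg _)

open Classical in
/-- the multiplication operator `M_a` on `L²(ℂ, gm)` (for bounded Borel `a`) -/
def M (a : ℂ → ℂ) : H →L[ℂ] H :=
  if ha : Bdm a then (mulLin ha).mkContinuous ha.2.choose (mulLin_bound ha ha.2.choose_spec)
  else 0

theorem M_coe {a : ℂ → ℂ} (ha : Bdm a) (f : H) : M a f =ᵐ[gm] fun z => a z * f z := by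
  have h1 : M a f = (ha.memLp_mul f).toLp _ := by
    unfold M
    rw [dif_pos ha]
    rfl
  rw [h1]
  exact (ha.memLp_mul f).coeFn_toLp

/-- indicator function of a set, complex valued -/
def ind (K : Set ℂ) : ℂ → ℂ := K.indicator (fun _ => 1)

/-- distance of two sets -/
def setDist (K L : Set ℂ) : ℝ≥0∞ := ⨅ x ∈ K, ⨅ y ∈ L, edist x y

/-- band operators: the distances of Borel sets `K, L` with `M_{1_L} A M_{1_K} ≠ 0` are bounded -/
def IsBand (A : H →L[ℂ] H) : Prop :=
  ∃ w : ℝ≥0∞, w ≠ ∞ ∧ ∀ K L : Set ℂ, MeasurableSet K → MeasurableSet L →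
    (M (ind L)) ∘L A ∘L (M (ind K)) ≠ 0 → setDist K L ≤ w

/-- band-dominated operators: norm limits of band operators -/
def BDO : Set (H →L[ℂ] H) := closure {A | IsBand A}

/-- the function `(1/j!) e^{|z|²} ∂_z^j (e^{-|z|²} g(z))` for entire `g`; as `g` is entire,
`∂_z` is the complex derivative in which the conjugate variable is kept constant -/
def tp (j : ℕ) (g : ℂ → ℂ) (z : ℂ) : ℂ :=
  (1 / (j.factorial : ℂ)) * (exp (z * starRingEnd ℂ z) *
    iteratedDeriv j (fun u => exp (-(u * starRingEnd ℂ z)) * g u) z)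

end

end TP
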