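import Pool.Agent.W2helper17.TP.Def

/-!
# The true polyanalytic Fock spaces as submodules of `L²(ℂ, gm)`
-/

namespace TP

open MeasureTheory Complex
open scoped ENNReal

noncomputable section

theorem entire_aux {g : ℂ → ℂ} (hg : Differentiable ℂ g) (b : ℂ) :
    Differentiable ℂ (fun u => exp (-(u * b)) * g u) := by fun_prop

theorem entire_cd {g : ℂ → ℂ} (hg : Differentiable ℂ g) (b : ℂ) (n : WithTop ℕ∞) (z : ℂ) :
    ContDiffAt ℂ n (fun u => exp (-(u * b)) * g u) z :=
  ((entire_aux hg b).contDiff).contDiffAt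

theorem tp_add {j : ℕ} {g h : ℂ → ℂ} (hg : Differentiable ℂ g) (hh : Differentiable ℂ h)
    (z : ℂ) : tp j (fun u => g u + h u) z = tp j g z + tp j h z := by
  unfold tp
  have h1 : (fun u => exp (-(u * starRingEnd ℂ z)) * (g u + h u)) =
      (fun u => exp (-(u * starRingEnd ℂ z)) * g u) +
        (fun u => exp (-(u * starRingEnd ℂ z)) * h u) := by
    funext u; simp only [Pi.add_apply]; ring
  rw [h1, iteratedDeriv_add (entire_cd hg _ _ _) (entire_cd hh _ _ _)]
  ring

theorem tp_smul {j : ℕ} {g : ℂ → ℂ} (hg : Differentiable ℂ g) (c : ℂ)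
    (z : ℂ) : tp j (fun u => c * g u) z = c * tp j g z := by
  unfold tp
  have h1 : (fun u => exp (-(u * starRingEnd ℂ z)) * (c * g u)) =
      (fun u => c * (exp (-(u * starRingEnd ℂ z)) * g u)) := by
    funext u; ring
  rw [h1, iteratedDeriv_const_mul_field]
  ring

/-- the true polyanalytic Fock space `F²_(j+1)`: the elements of `L²(ℂ, gm)` of the form
`tp j g` with `g` entire -/
def Fock (j : ℕ) : Submodule ℂ H where
  carrier := {f | ∃ g : ℂ → ℂ, Differentiable ℂ g ∧ f =ᵐ[gm] tp j g}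
  add_mem' := by
    rintro f h ⟨g₁, hg₁, e₁⟩ ⟨g₂, hg₂, e₂⟩
    refine ⟨fun u => g₁ u + g₂ u, hg₁.add hg₂, ?_⟩
    filter_upwards [Lp.coeFn_add f h, e₁, e₂] with z h1 h2 h3
    rw [h1, Pi.add_apply, h2, h3, tp_add hg₁ hg₂]
  zero_mem' := by
    refine ⟨fun _ => 0, differentiable_const _, ?_⟩
    filter_upwards [Lp.coeFn_zero ℂ 2 gm] with z hz
    rw [hz]
    simp [tp]
  smul_mem' := by
    rintro c f ⟨g, hg, e⟩
    refine ⟨fun u => c * g u, hg.const_mul c, ?_⟩
    filter_upwards [Lp.coeFn_smul c f, e] with z h1 h2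
    rw [h1, Pi.smul_apply, h2, tp_smul hg, smul_eq_mul]

end

end TP
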