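import Pool.Agent.W2helper17.TP.Xop2

namespace TP

open MeasureTheory Complex Filter
open scoped ENNReal Topology

noncomputable section

theorem integral_mem_closed {E : Type*} [NormedAddCommGroup E] [NormedSpace ℂ E]
    [CompleteSpace E] (S : Submodule ℂ E) (hS : IsClosed (S : Set E)) {α : Type*}
    [MeasurableSpace α] {μ : Measure α} {φ : α → E} (hφ : ∀ x, φ x ∈ S)
    (hi : Integrable φ μ) : ∫ x, φ x ∂μ ∈ S := by
  haveI : IsClosed (S : Set E) := hS
  have h1 : S.mkQL (∫ x, φ x ∂μ) = 0 := by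
    rw [← ContinuousLinearMap.integral_comp_comm _ hi]
    have : ∀ x, S.mkQL (φ x) = 0 := fun x => (Submodule.Quotient.mk_eq_zero S).mpr (hφ x)
    simp [this]
  exact (Submodule.Quotient.mk_eq_zero S).mp h1

variable {j : ℕ} {P : H →L[ℂ] H}

theorem nu_W (c : Coh j P) (ζ : ℂ) : nu (W ζ c.k) = nu c.k := by
  unfold nu
  have h1 : ∫ z : ℂ, ‖(W ζ c.k : H) z‖ * Real.exp (-‖z‖ ^ 2 / 2) =
      ∫ z : ℂ, ‖c.K (z - ζ)‖ * Real.exp (-‖z - ζ‖ ^ 2 / 2) := by
    apply integral_congr_ae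
    filter_upwards [coh_ae c.hK ζ] with z hz
    unfold Coh.k
    rw [hz, norm_mul, mul_right_comm, norm_wfac', mul_comm]
  have h2 : ∫ z : ℂ, ‖(c.k : H) z‖ * Real.exp (-‖z‖ ^ 2 / 2) =
      ∫ z : ℂ, ‖c.K z‖ * Real.exp (-‖z‖ ^ 2 / 2) := by
    apply integral_congr_ae
    filter_upwards [ae_gm_iff.mp c.hK.coeFn_toLp] with z hz
    unfold Coh.k
    rw [hz]
  rw [h1, h2, integral_sub_right_eq_self (fun z : ℂ => ‖c.K z‖ * Real.exp (-‖z‖ ^ 2 / 2)) ζ]

/-- the kernel of the form -/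
def Coh.G (c : Coh j P) (A : H →L[ℂ] H) (f h : H) (z z' : ℂ) : ℂ :=
  inner ℂ (W z c.k) (A (W z' c.k)) * (inner ℂ h (W z c.k) * inner ℂ (W z' c.k) f)

theorem Coh.G_cont (hCONT : P_CONT) (c : Coh j P) (A : H →L[ℂ] H) (f h : H) :
    Continuous (fun p : ℂ × ℂ => c.G A f h p.1 p.2) := by
  unfold Coh.G
  have h1 : Continuous (fun p : ℂ × ℂ => W p.1 c.k) := (hCONT c.k).comp continuous_fst
  have h2 : Continuous (fun p : ℂ × ℂ => W p.2 c.k) := (hCONT c.k).comp continuous_snd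
  exact (h1.inner (A.continuous.comp h2)).mul
    ((continuous_const.inner h1).mul (h2.inner continuous_const))

theorem Coh.G_bd (c : Coh j P) (A : H →L[ℂ] H) (f h : H) (z z' : ℂ) :
    ‖c.G A f h z z'‖ ≤ (‖c.k‖ * (‖A‖ * ‖c.k‖)) * ((‖h‖ * ‖c.k‖) * (‖c.k‖ * ‖f‖)) := by
  unfold Coh.G
  rw [norm_mul, norm_mul]
  gcongr
  · refine (norm_inner_le_norm _ _).trans ?_
    rw [(W z).norm_map]
    gcongr
    refine (A.le_opNorm _).trans ?_
    rw [(W z').norm_map]
  · refine (norm_inner_le_norm _ _).trans ?_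
    rw [(W z).norm_map]
  · refine (norm_inner_le_norm _ _).trans ?_
    rw [(W z').norm_map]

theorem Coh.G_shift (c : Coh j P) (A : H →L[ℂ] H) (f h : H) (z ζ : ℂ) :
    c.G A f h z (z + ζ) = inner ℂ (W z c.k) (A (W z (W ζ c.k))) *
      (inner ℂ h (W z c.k) * inner ℂ (W z (W ζ c.k)) f) := by
  rw [W_W]
  exact (phase_cancel A _ _ _ _ _ (norm_coc z ζ)).symm

/-- the integral over the diagonal direction -/
theorem Coh.G_int (hV : P_V) (hCONT : P_CONT) (c : Coh j P) (A : H →L[ℂ] H) (f h : H)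
    (x y : ℂ) :
    Integrable (fun w : ℂ => c.G A f h (w + x) (w + y)) volume ∧
    c.C * ∫ w : ℂ, c.G A f h (w + x) (w + y) = inner ℂ h (c.X A (y - x) f) := by
  obtain ⟨i1, _⟩ := c.est hV hCONT A (W (y - x) c.k) (W (y - x) c.k) f h (c.int_k _)
  simp_rw [← c.G_shift] at i1
  have e1 : (fun w : ℂ => c.G A f h (w + x) (w + y)) =
      fun w : ℂ => (fun z => c.G A f h z (z + (y - x))) (w + x) := by
    funext w
    simp only
    congr 1
    ring
  refine ⟨?_, ?_⟩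
  · rw [e1]
    exact i1.comp_add_right x
  · rw [e1, integral_add_right_eq_self (fun z => c.G A f h z (z + (y - x))) x,
      c.X_form hCONT]
    simp_rw [c.G_shift]

theorem Coh.G_int_norm (hV : P_V) (hCONT : P_CONT) (c : Coh j P) (A : H →L[ℂ] H) (f h : H)
    (x y : ℂ) :
    ∫ w : ℂ, ‖c.G A f h (w + x) (w + y)‖ ≤
      (‖c.k‖ * (‖A‖ * ‖c.k‖)) * ((1 / Real.pi) * nu c.k * nu c.k * ‖f‖ * ‖h‖) := by
  have e1 : (fun w : ℂ => ‖c.G A f h (w + x) (w + y)‖) =
      fun w : ℂ => (fun z => ‖c.G A f h z (z + (y - x))‖) (w + x) := by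
    funext w
    simp only
    congr 2
    ring
  rw [e1, integral_add_right_eq_self (fun z => ‖c.G A f h z (z + (y - x))‖) x]
  obtain ⟨i1, b1⟩ := hold hV (c.int_k (y - x)) c.int_k0 f h
  rw [nu_W] at b1
  have hbd : ∀ z : ℂ, ‖c.G A f h z (z + (y - x))‖ ≤
      (‖c.k‖ * (‖A‖ * ‖c.k‖)) * (‖inner ℂ (W z (W (y - x) c.k)) f‖ * ‖inner ℂ (W z c.k) h‖) := by
    intro z
    rw [c.G_shift, norm_mul, norm_mul, mul_comm ‖inner ℂ h (W z c.k)‖, norm_inner_symm h]
    gcongr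
    refine (norm_inner_le_norm _ _).trans ?_
    rw [(W z).norm_map]
    gcongr
    refine (A.le_opNorm _).trans ?_
    rw [(W z).norm_map, (W (y - x)).norm_map]
  refine (integral_mono_of_nonneg (Eventually.of_forall fun z => norm_nonneg _)
    (i1.const_mul _) (Eventually.of_forall hbd)).trans ?_
  rw [integral_const_mul]
  gcongr

end

end TP
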