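import Pool.Agent.W2helper17.TP.Fub

namespace TP

open MeasureTheory Complex Filter
open scoped ENNReal Topology

noncomputable section

variable {j : ℕ} {P : H →L[ℂ] H}

/-- Lebesgue measure on the ball `B(0,r)` -/
def bm (r : ℝ) : Measure ℂ := (volume : Measure ℂ).restrict (Metric.ball 0 r)

instance bm_fin (r : ℝ) : IsFiniteMeasure (bm r) := by
  unfold bm
  exact ⟨by rw [Measure.restrict_apply_univ]; exact measure_ball_lt_top⟩

theorem Coh.G_cont2 (hCONT : P_CONT) (c : Coh j P) (A : H →L[ℂ] H) (f h : H) {α : Type*}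
    [TopologicalSpace α] {s t : α → ℂ} (hs : Continuous s) (ht : Continuous t) :
    Continuous (fun q => c.G A f h (s q) (t q)) := by
  unfold Coh.G
  have h1 : Continuous (fun q => W (s q) c.k) := (hCONT c.k).comp hs
  have h2 : Continuous (fun q => W (t q) c.k) := (hCONT c.k).comp ht
  exact (h1.inner (A.continuous.comp h2)).mul
    ((continuous_const.inner h1).mul (h2.inner continuous_const))

theorem ind_bdm {K : Set ℂ} (hK : MeasurableSet K) : Bdm (ind K) := by
  refine ⟨measurable_const.indicator hK, 1, fun z => ?_⟩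
  unfold ind
  by_cases h : z ∈ K <;> simp [h]

/-- integrals against the indicator of a ball -/
theorem int_ind_ball (w : ℂ) (r : ℝ) (F : ℂ → ℂ) :
    ∫ z : ℂ, ind (Metric.ball w r) z * F z = ∫ x, F (w + x) ∂(bm r) := by
  unfold bm
  rw [← integral_indicator Metric.isOpen_ball.measurableSet,
    ← integral_add_left_eq_self (fun z => ind (Metric.ball w r) z * F z) w]
  congr 1
  funext x
  unfold ind
  by_cases h : x ∈ Metric.ball (0 : ℂ) r
  · have h' : w + x ∈ Metric.ball w r := by
      simpa [Metric.mem_ball, dist_eq_norm] using h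
    rw [Set.indicator_of_mem h, Set.indicator_of_mem h', one_mul]
  · have h' : w + x ∉ Metric.ball w r := by
      simpa [Metric.mem_ball, dist_eq_norm] using h
    rw [Set.indicator_of_notMem h, Set.indicator_of_notMem h', zero_mul]

/-- the form of `M_B A M_B` for fixed `w` -/
theorem Coh.slice (c : Coh j P) (A : H →L[ℂ] H) (hA : P ∘L A ∘L P = A) {f h : H}
    (hf : P f = f) (hh : P h = h) (w : ℂ) (r : ℝ) :
    inner ℂ (M (ind (Metric.ball w r)) h) (A (M (ind (Metric.ball w r)) f)) =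
      c.C ^ 2 * ∫ y, ∫ x, c.G A f h (w + x) (w + y) ∂(bm r) ∂(bm r) := by
  have hP3 := c.proj.2.2
  have hb : Bdm (ind (Metric.ball w r)) := ind_bdm Metric.isOpen_ball.measurableSet
  set a : ℂ → ℂ := ind (Metric.ball w r) with ha
  have hA' : ∀ v, A v = P (A (P v)) := fun v => by
    conv_lhs => rw [← hA]
    rfl
  have e1 : inner ℂ (M a h) (A (M a f)) =
      inner ℂ (ContinuousLinearMap.adjoint A (P (M a (P h)))) (P (M a (P f))) := by
    rw [hA', ← hP3, hf, hh, ContinuousLinearMap.adjoint_inner_left]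
  rw [e1, c.res a hb]
  have e2 : ∀ z' : ℂ, inner ℂ (ContinuousLinearMap.adjoint A (P (M a (P h))))
      (W z' (c.hK.toLp c.K)) = c.C * ∫ z : ℂ, a z * (inner ℂ (W z c.k) (A (W z' c.k)) *
        inner ℂ h (W z c.k)) := by
    intro z'
    rw [ContinuousLinearMap.adjoint_inner_left, ← inner_conj_symm, c.res a hb, map_mul,
      Complex.conj_ofReal, ← integral_conj]
    congr 2
    funext z
    rw [map_mul, map_mul, inner_conj_symm, inner_conj_symm]
    have : starRingEnd ℂ (a z) = a z := by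
      rw [ha]
      unfold ind
      by_cases h : z ∈ Metric.ball w r <;> simp [h]
    rw [this]
    rfl
  simp_rw [e2]
  rw [pow_two, mul_assoc]
  congr 1
  have e3 : ∀ z' : ℂ, a z' * ((c.C : ℂ) * (∫ z : ℂ, a z * (inner ℂ (W z c.k) (A (W z' c.k)) *
        inner ℂ h (W z c.k))) * inner ℂ (W z' (c.hK.toLp c.K)) f) =
      a z' * ((fun z' => (c.C : ℂ) * ∫ x, c.G A f h (w + x) z' ∂(bm r)) z') := by
    intro z'
    congr 1
    rw [ha, int_ind_ball w r (fun z => inner ℂ (W z c.k) (A (W z' c.k)) * inner ℂ h (W z c.k)),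
      mul_assoc]
    simp only
    congr 1
    rw [← integral_mul_const]
    congr 1
    funext x
    unfold Coh.G
    rw [mul_assoc]
    rfl
  simp_rw [e3]
  rw [ha, int_ind_ball w r, ← integral_const_mul]

theorem Coh.triple (hV : P_V) (hCONT : P_CONT) (c : Coh j P) (A : H →L[ℂ] H) (f h : H) (r : ℝ) :
    Integrable (fun q : ℂ × (ℂ × ℂ) => c.G A f h (q.1 + q.2.2) (q.1 + q.2.1))
      ((volume : Measure ℂ).prod ((bm r).prod (bm r))) := by
  have hcont : Continuous (fun q : ℂ × (ℂ × ℂ) => c.G A f h (q.1 + q.2.2) (q.1 + q.2.1)) :=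
    c.G_cont2 hCONT A f h (s := fun q : ℂ × (ℂ × ℂ) => q.1 + q.2.2)
      (t := fun q : ℂ × (ℂ × ℂ) => q.1 + q.2.1) (by fun_prop) (by fun_prop)
  have hmeas := hcont.aestronglyMeasurable (μ := (volume : Measure ℂ).prod ((bm r).prod (bm r)))
  rw [integrable_prod_iff' hmeas]
  refine ⟨Eventually.of_forall fun p => (c.G_int hV hCONT A f h p.2 p.1).1, ?_⟩
  refine Integrable.of_bound (hmeas.norm.prod_swap.integral_prod_right')
    ((‖c.k‖ * (‖A‖ * ‖c.k‖)) * ((1 / Real.pi) * nu c.k * nu c.k * ‖f‖ * ‖h‖))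
    (Eventually.of_forall fun p => ?_)
  simp only [Function.comp, Prod.swap]
  rw [Real.norm_eq_abs, abs_of_nonneg (integral_nonneg fun w => norm_nonneg _)]
  exact c.G_int_norm hV hCONT A f h p.2 p.1

theorem Coh.avg_form (hV : P_V) (hCONT : P_CONT) (c : Coh j P) (A : H →L[ℂ] H)
    (hA : P ∘L A ∘L P = A) {f h : H} (hf : P f = f) (hh : P h = h) (r : ℝ) :
    ∫ w : ℂ, inner ℂ (M (ind (Metric.ball w r)) h) (A (M (ind (Metric.ball w r)) f)) =
      c.C * ∫ p, inner ℂ h (c.X A (p.1 - p.2) f) ∂((bm r).prod (bm r)) := by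
  simp_rw [c.slice A hA hf hh _ r]
  rw [integral_const_mul]
  have e1 : ∀ w : ℂ, ∫ y, ∫ x, c.G A f h (w + x) (w + y) ∂(bm r) ∂(bm r) =
      ∫ p, c.G A f h (w + p.2) (w + p.1) ∂((bm r).prod (bm r)) := by
    intro w
    have hcont : Continuous (fun p : ℂ × ℂ => c.G A f h (w + p.2) (w + p.1)) :=
      c.G_cont2 hCONT A f h (s := fun p : ℂ × ℂ => w + p.2)
        (t := fun p : ℂ × ℂ => w + p.1) (by fun_prop) (by fun_prop)
    have hi : Integrable (fun p : ℂ × ℂ => c.G A f h (w + p.2) (w + p.1))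
        ((bm r).prod (bm r)) :=
      Integrable.of_bound hcont.aestronglyMeasurable _
        (Eventually.of_forall fun p => c.G_bd A f h _ _)
    rw [integral_prod _ hi]
  simp_rw [e1]
  rw [integral_integral_swap (f := fun (w : ℂ) (p : ℂ × ℂ) => c.G A f h (w + p.2) (w + p.1))
    (c.triple hV hCONT A f h r), pow_two, mul_assoc]
  congr 1
  rw [← integral_const_mul]
  congr 1
  funext p
  exact (c.G_int hV hCONT A f h p.2 p.1).2

end

end TP
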