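import Pool.Agent.W2helper17.TP.Fub2

namespace TP

open MeasureTheory Complex Filter
open scoped ENNReal Topology

noncomputable section

variable {j : ℕ} {P : H →L[ℂ] H}

theorem Coh.X_mem (hSCHUR : P_SCHUR) (hCONT : P_CONT) (c : Coh j P)
    {S : Set (H →L[ℂ] H)} (hS : Alg P S) (A : H →L[ℂ] H) (ζ : ℂ) : c.X A ζ ∈ S := by
  have h1 : c.X A ζ = (P ∘L M (c.sym A ζ) ∘L P) ∘L ((W (-ζ)).toContinuousLinearMap ∘L P) := by
    ext1 f
    change P (M (c.sym A ζ) (P (W (-ζ) f))) = P (M (c.sym A ζ) (P (W (-ζ) (P f))))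
    rw [P_W c.proj, P_W c.proj, c.proj.2.1 _ (c.proj.1 f)]
  rw [h1]
  exact hS.mul _ (hS.top _ (c.sym_bdm hCONT A ζ)) _
    (W_mem hSCHUR hCONT c.proj ⟨_, c.mem, c.nz⟩ hS (-ζ))

theorem Coh.X_bd (hV : P_V) (hCONT : P_CONT) (c : Coh j P) (A : H →L[ℂ] H) (ζ : ℂ) :
    ‖c.X A ζ‖ ≤ c.C * ((‖c.k‖ * ‖A‖ * (1 / Real.pi) * nu c.k) * (‖c.k‖ * nu c.k)) := by
  have n0 := nu_nonneg c.k
  have hpi := Real.pi_pos
  have hC := c.hC
  refine opNorm_le_of_inner _ (by positivity) fun f h => ?_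
  obtain ⟨_, b⟩ := c.est hV hCONT A (W ζ c.k) (W ζ c.k) f h (c.int_k ζ)
  rw [nu_W, (W ζ).norm_map] at b
  rw [c.X_form hCONT, norm_mul, Complex.norm_real, Real.norm_eq_abs, abs_of_pos hC]
  calc c.C * ‖_‖ ≤ c.C * ((‖c.k‖ * ‖A‖ * (1 / Real.pi) * nu c.k) * (‖c.k‖ * nu c.k) *
        ‖f‖ * ‖h‖) := by gcongr
    _ = _ := by ring

/-- core: band-dominated operators are in every closed algebra containing the Toeplitz
operators -/
theorem Coh.core (hSCHUR : P_SCHUR) (hV : P_V) (hCONT : P_CONT) (hAVG : P_AVG) (c : Coh j P)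
    {S : Set (H →L[ℂ] H)} (hS : Alg P S) (A : H →L[ℂ] H) (hA : P ∘L A ∘L P = A)
    (hB : A ∈ BDO) : A ∈ S := by
  have hPP : ∀ v, P (P v) = P v := fun v => c.proj.2.1 _ (c.proj.1 v)
  -- the submodule
  have h0S : (0 : H →L[ℂ] H) ∈ S := by
    have := hS.smul 0 _ (c.X_mem hSCHUR hCONT hS A 0)
    rwa [zero_smul] at this
  let S' : Submodule ℂ (H →L[ℂ] H) :=
    { carrier := S
      add_mem' := fun {a b} ha hb => hS.add a ha b hb
      zero_mem' := h0S
      smul_mem' := fun c {a} ha => hS.smul c a ha }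
  rw [← hS.closed.closure_eq, Metric.mem_closure_iff]
  intro ε hε
  obtain ⟨r, hr, hbound⟩ := hAVG A hB (ε / 2) (by positivity)
  set Y : H →L[ℂ] H := ((c.C / (Real.pi * r ^ 2) : ℝ) : ℂ) •
    ∫ p, c.X A (p.1 - p.2) ∂((bm r).prod (bm r)) with hY
  have hcont : Continuous (fun p : ℂ × ℂ => c.X A (p.1 - p.2)) :=
    (c.X_cont hV hCONT A).comp (by fun_prop)
  have hint : Integrable (fun p : ℂ × ℂ => c.X A (p.1 - p.2)) ((bm r).prod (bm r)) :=
    Integrable.of_bound hcont.aestronglyMeasurable _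
      (Eventually.of_forall fun p => c.X_bd hV hCONT A _)
  have hYS : Y ∈ S' := S'.smul_mem _ (integral_mem_closed S' hS.closed
    (fun p => c.X_mem hSCHUR hCONT hS A _) hint)
  refine ⟨Y, hYS, ?_⟩
  -- corner property of `Y`
  have hYform : ∀ f h : H, inner ℂ h (Y f) = ((c.C / (Real.pi * r ^ 2) : ℝ) : ℂ) *
      ∫ p, inner ℂ h (c.X A (p.1 - p.2) f) ∂((bm r).prod (bm r)) := by
    intro f h
    rw [hY]
    change inner ℂ h (((c.C / (Real.pi * r ^ 2) : ℝ) : ℂ) •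
      ((∫ p, c.X A (p.1 - p.2) ∂((bm r).prod (bm r))) f)) = _
    rw [inner_smul_right, ContinuousLinearMap.integral_apply hint]
    congr 1
    have hi2 : Integrable (fun p : ℂ × ℂ => c.X A (p.1 - p.2) f) ((bm r).prod (bm r)) :=
      hint.apply_continuousLinearMap f
    exact (integral_inner hi2 h).symm
  have hXP : ∀ ζ f h, inner ℂ h (c.X A ζ f) = inner ℂ (P h) (c.X A ζ (P f)) := by
    intro ζ f h
    rw [c.proj.2.2]
    change inner ℂ h (P (M (c.sym A ζ) (P (W (-ζ) f)))) =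
      inner ℂ h (P (P (M (c.sym A ζ) (P (W (-ζ) (P f))))))
    rw [hPP, P_W c.proj, P_W c.proj, hPP]
  have hnorm : ‖Y - A‖ ≤ ε / 2 := by
    refine opNorm_le_of_inner _ (by positivity) fun f h => ?_
    have e1 : inner ℂ h ((Y - A) f) = inner ℂ (P h) (Y (P f)) - inner ℂ (P h) (A (P f)) := by
      change inner ℂ h (Y f - A f) = _
      rw [inner_sub_right, hYform f h, hYform (P f) (P h)]
      congr 1
      · congr 2
        funext p
        exact hXP _ f h
      · rw [c.proj.2.2]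
        conv_lhs => rw [← hA]
        rfl
    have h2 := hbound (P f) (P h)
    rw [c.avg_form hV hCONT A hA (hPP f) (hPP h) r] at h2
    rw [e1, hYform]
    have e2 : ((c.C / (Real.pi * r ^ 2) : ℝ) : ℂ) *
        ∫ p, inner ℂ (P h) (c.X A (p.1 - p.2) (P f)) ∂((bm r).prod (bm r)) =
        (1 / (Real.pi * r ^ 2) : ℝ) • ((c.C : ℂ) *
          ∫ p, inner ℂ (P h) (c.X A (p.1 - p.2) (P f)) ∂((bm r).prod (bm r))) := by
      rw [Complex.real_smul, ← mul_assoc]
      congr 1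
      push_cast
      ring
    rw [e2]
    refine h2.trans ?_
    have hPn : ∀ v, ‖P v‖ ≤ ‖v‖ := by
      intro v
      have h3 : inner ℂ (P v) (P v) = inner ℂ v (P v) := by
        rw [c.proj.2.2, hPP]
      have h4 : ‖P v‖ ^ 2 ≤ ‖v‖ * ‖P v‖ := by
        have h5 := norm_inner_le_norm (𝕜 := ℂ) v (P v)
        rw [← h3, inner_self_eq_norm_sq_to_K, norm_pow] at h5
        simpa using h5
      rcases eq_or_lt_of_le (norm_nonneg (P v)) with h0 | h0
      · rw [← h0]; positivity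
      · nlinarith
    have := hPn f
    have := hPn h
    gcongr
  rw [dist_comm, dist_eq_norm]
  linarith

end

end TP
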