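import Pool.Agent.W2helper17.TP.Main1
import Pool.Agent.W2helper17.TP.Clo2
import Pool.Agent.W2helper17.TP.Res
import Pool.Agent.W2helper17.TP.Final
import Pool.Agent.W2helper69.TP.Rep
import Pool.Agent.W2helper69.TP.Vop
import Pool.Agent.W2helper71.TP.Schur
import Pool.Agent.W2helper73.TP.Bdo
import Pool.Agent.W2helper73.TP.Pb
import Pool.Agent.W2helper43.TP.Avg

/-!
# Band-dominated operators on the true polyanalytic Fock spaces
-/

namespace TP

open MeasureTheory Complex Filter
open scoped ENNReal Topology

noncomputable section

theorem Fock_closed (j : ℕ) : IsClosed (Fock j : Set H) := (piece_CLO piece_OM piece_POL j).1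

instance Fock_complete (j : ℕ) : CompleteSpace (Fock j) :=
  (Fock_closed j).completeSpace_coe

theorem res : P_RES := piece_RES piece_REP piece_OM piece_POL

theorem schur : P_SCHUR :=
  piece_SCHUR piece_OM piece_POL piece_COV (piece_CLO piece_OM piece_POL)

theorem isProjF_star (j : ℕ) : IsProjF j (Fock j).starProjection :=
  ⟨fun f => Submodule.starProjection_apply_mem _ f,
   fun _ hf => Submodule.starProjection_eq_self_iff.mpr hf,
   fun f h => (Fock j).inner_starProjection_left_eq_right f h⟩

theorem coh_nonempty (j : ℕ) : Nonempty (Coh j (Fock j).starProjection) := by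
  obtain ⟨K, hK, C, κ, hC, hκ, hcont, hpol, hmem, hn, hres⟩ := res j
  exact ⟨{ K := K, hK := hK, C := C, hC := hC, cont := hcont, pol := hpol, mem := hmem
           nz := by
             intro h0
             rw [h0, norm_zero] at hn
             norm_num at hn
             exact hκ.ne hn
           proj := isProjF_star j
           res := hres _ (isProjF_star j) }⟩

theorem alg_corner (j : ℕ) : Alg (Fock j).starProjection (corner (Fock j)) where
  closed := corner_closed _
  add := fun _ hA _ hB => corner_add _ hA hB
  smul := fun c _ hA => corner_smul _ c hA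
  mul := fun _ hA _ hB => corner_mul _ hA hB
  top := fun _ ha => corner_top _ ha

theorem main_true (j : ℕ) :
    BandDom (Fock j) = (ToepAlg (Fock j) : Set (Fock j →L[ℂ] Fock j)) := by
  obtain ⟨c⟩ := coh_nonempty j
  refine Set.Subset.antisymm (transfer _ fun A hA hB => ?_) (ToepAlg_le _ piece_BDO ?_)
  · exact c.core schur piece_V piece_CONT piece_AVG (alg_corner j) A hA hB
  · exact piece_PB res piece_V j _ (isProjF_star j)

end

end TP
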