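import Pool.Agent.W2helper17.TP.Clo

namespace TP

open MeasureTheory Complex Filter
open scoped ENNReal Topology

noncomputable section

/-- the weighted `L¹` norm -/
def nu (u : H) : ℝ := ∫ z : ℂ, ‖u z‖ * Real.exp (-‖z‖ ^ 2 / 2)

theorem nu_nonneg (u : H) : 0 ≤ nu u := integral_nonneg fun z => by positivity

theorem pow_gauss (m : ℕ) (t : ℝ) (ht : 0 ≤ t) :
    (1 + t) ^ m * Real.exp (-t ^ 2 / 2) ≤ m.factorial * Real.exp 2 := by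
  have h1 : (1 + t) ^ m / m.factorial ≤ Real.exp (1 + t) :=
    Real.pow_div_factorial_le_exp _ (by linarith) _
  have hf : (0 : ℝ) < m.factorial := by exact_mod_cast Nat.factorial_pos m
  rw [div_le_iff₀ hf] at h1
  have h2 : Real.exp (-t ^ 2 / 2) ≤ Real.exp (1 - t) := by
    apply Real.exp_le_exp.mpr
    nlinarith [sq_nonneg (t - 1)]
  calc (1 + t) ^ m * Real.exp (-t ^ 2 / 2)
      ≤ (Real.exp (1 + t) * m.factorial) * Real.exp (1 - t) := by gcongr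
    _ = m.factorial * (Real.exp (1 + t) * Real.exp (1 - t)) := by ring
    _ = m.factorial * Real.exp 2 := by rw [← Real.exp_add]; congr 2; ring

theorem K_bound {K : ℂ → ℂ} (hpol : ∃ (C : ℝ) (N : ℕ), ∀ z, ‖K z‖ ≤ C * (1 + ‖z‖) ^ N) :
    ∃ D : ℝ, 0 ≤ D ∧ ∀ z, ‖K z‖ * Real.exp (-‖z‖ ^ 2 / 2) ≤ D * (1 + ‖z‖) ^ (-(3 : ℝ)) := by
  obtain ⟨C, N, h⟩ := hpol
  refine ⟨|C| * ((N + 3).factorial * Real.exp 2), by positivity, fun z => ?_⟩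
  have h1 := pow_gauss (N + 3) ‖z‖ (norm_nonneg z)
  have hp : (0 : ℝ) < 1 + ‖z‖ := by positivity
  have h2 : (1 + ‖z‖) ^ (-(3 : ℝ)) = ((1 + ‖z‖) ^ 3)⁻¹ := by
    rw [Real.rpow_neg hp.le]
    congr 1
    exact_mod_cast Real.rpow_natCast (1 + ‖z‖) 3
  rw [h2, ← div_eq_mul_inv, le_div_iff₀ (by positivity)]
  calc ‖K z‖ * Real.exp (-‖z‖ ^ 2 / 2) * (1 + ‖z‖) ^ 3
      ≤ (|C| * (1 + ‖z‖) ^ N) * Real.exp (-‖z‖ ^ 2 / 2) * (1 + ‖z‖) ^ 3 := by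
        gcongr
        refine (h z).trans ?_
        gcongr
        exact le_abs_self C
    _ = |C| * ((1 + ‖z‖) ^ (N + 3) * Real.exp (-‖z‖ ^ 2 / 2)) := by ring
    _ ≤ |C| * ((N + 3).factorial * Real.exp 2) := by gcongr

theorem norm_wfac' (w z : ℂ) :
    ‖wfac w z‖ * Real.exp (-‖z‖ ^ 2 / 2) = Real.exp (-‖z - w‖ ^ 2 / 2) := by
  have h := norm_wfac w z
  have h1 : (‖wfac w z‖ * Real.exp (-‖z‖ ^ 2 / 2)) ^ 2 = (Real.exp (-‖z - w‖ ^ 2 / 2)) ^ 2 := by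
    rw [mul_pow, ← Real.exp_nat_mul, ← Real.exp_nat_mul]
    have e1 : ((2 : ℕ) : ℝ) * (-‖z‖ ^ 2 / 2) = -‖z‖ ^ 2 := by push_cast; ring
    have e2 : ((2 : ℕ) : ℝ) * (-‖z - w‖ ^ 2 / 2) = -‖z - w‖ ^ 2 := by push_cast; ring
    rw [e1, e2, h]
  exact (pow_left_inj₀ (by positivity) (by positivity) two_ne_zero).mp h1

theorem int3 (ζ : ℂ) : Integrable (fun z : ℂ => (1 + ‖z - ζ‖) ^ (-(3 : ℝ))) volume := by
  have h : Integrable (fun z : ℂ => (1 + ‖z‖) ^ (-(3 : ℝ))) volume := by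
    apply integrable_one_add_norm
    rw [Complex.finrank_real_complex]
    norm_num
  exact h.comp_sub_right ζ

/-- pointwise bound for the coherent states -/
theorem coh_bound {K : ℂ → ℂ} {D : ℝ}
    (hD : ∀ z, ‖K z‖ * Real.exp (-‖z‖ ^ 2 / 2) ≤ D * (1 + ‖z‖) ^ (-(3 : ℝ))) (ζ z : ℂ) :
    ‖wfac ζ z * K (z - ζ)‖ * Real.exp (-‖z‖ ^ 2 / 2) ≤ D * (1 + ‖z - ζ‖) ^ (-(3 : ℝ)) := by
  refine le_trans (le_of_eq ?_) (hD (z - ζ))
  rw [norm_mul, mul_right_comm, norm_wfac', mul_comm]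

theorem coh_ae {K : ℂ → ℂ} (hK : MemLp K 2 gm) (ζ : ℂ) :
    (W ζ (hK.toLp K) : ℂ → ℂ) =ᵐ[volume] fun z => wfac ζ z * K (z - ζ) :=
  ae_gm_iff.mp (W_congr ζ hK.coeFn_toLp)

theorem coh_int {K : ℂ → ℂ} (hK : MemLp K 2 gm) (hcont : Continuous K)
    (hpol : ∃ (C : ℝ) (N : ℕ), ∀ z, ‖K z‖ ≤ C * (1 + ‖z‖) ^ N) (ζ : ℂ) :
    Integrable (fun z : ℂ => ‖(W ζ (hK.toLp K) : H) z‖ * Real.exp (-‖z‖ ^ 2 / 2)) volume := by
  obtain ⟨D, hD0, hD⟩ := K_bound hpol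
  have h1 : Integrable (fun z : ℂ => ‖wfac ζ z * K (z - ζ)‖ * Real.exp (-‖z‖ ^ 2 / 2)) volume := by
    refine Integrable.mono' ((int3 ζ).const_mul D) ?_ ?_
    · have := wfac_cont ζ
      exact (by fun_prop : Continuous _).aestronglyMeasurable
    · filter_upwards with z
      rw [Real.norm_eq_abs, abs_of_nonneg (by positivity)]
      exact coh_bound hD ζ z
  refine h1.congr ?_
  filter_upwards [coh_ae hK ζ] with z hz
  rw [hz]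

theorem coh_sub_int {K : ℂ → ℂ} (hK : MemLp K 2 gm) (hcont : Continuous K)
    (hpol : ∃ (C : ℝ) (N : ℕ), ∀ z, ‖K z‖ ≤ C * (1 + ‖z‖) ^ N) (ζ ζ' : ℂ) :
    Integrable (fun z : ℂ => ‖(W ζ (hK.toLp K) - W ζ' (hK.toLp K) : H) z‖ *
      Real.exp (-‖z‖ ^ 2 / 2)) volume := by
  refine Integrable.mono' ((coh_int hK hcont hpol ζ).add (coh_int hK hcont hpol ζ')) ?_ ?_
  · have h1 : AEStronglyMeasurable ((W ζ (hK.toLp K) - W ζ' (hK.toLp K) : H) : ℂ → ℂ) volume :=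
      (Lp.aestronglyMeasurable _).mono_ac vol_ac
    exact h1.norm.mul (by fun_prop : Continuous _).aestronglyMeasurable
  · filter_upwards [ae_gm_iff.mp (Lp.coeFn_sub (W ζ (hK.toLp K)) (W ζ' (hK.toLp K)))] with z hz
    rw [Real.norm_eq_abs, abs_of_nonneg (by positivity), hz, Pi.sub_apply, Pi.add_apply, ← add_mul]
    gcongr
    exact norm_sub_le _ _

theorem nu_tendsto {K : ℂ → ℂ} (hK : MemLp K 2 gm) (hcont : Continuous K)
    (hpol : ∃ (C : ℝ) (N : ℕ), ∀ z, ‖K z‖ ≤ C * (1 + ‖z‖) ^ N) (ζ : ℂ) :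
    Tendsto (fun ζ' => nu (W ζ (hK.toLp K) - W ζ' (hK.toLp K))) (𝓝 ζ) (𝓝 0) := by
  obtain ⟨D, hD0, hD⟩ := K_bound hpol
  have e0 : (0 : ℝ) = ∫ _ : ℂ, (0 : ℝ) := by simp
  rw [e0]
  have e1 : ∀ ζ', nu (W ζ (hK.toLp K) - W ζ' (hK.toLp K)) =
      ∫ z : ℂ, ‖wfac ζ z * K (z - ζ) - wfac ζ' z * K (z - ζ')‖ * Real.exp (-‖z‖ ^ 2 / 2) := by
    intro ζ'
    apply integral_congr_ae
    filter_upwards [coh_ae hK ζ, coh_ae hK ζ',
      ae_gm_iff.mp (Lp.coeFn_sub (W ζ (hK.toLp K)) (W ζ' (hK.toLp K)))] with z h1 h2 h3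
    rw [h3, Pi.sub_apply, h1, h2]
  simp_rw [e1]
  apply tendsto_integral_filter_of_dominated_convergence
    (fun z => (D + 8 * D) * (1 + ‖z - ζ‖) ^ (-(3 : ℝ)))
  · filter_upwards with ζ'
    have h1 := wfac_cont ζ
    have h2 := wfac_cont ζ'
    exact (by fun_prop : Continuous _).aestronglyMeasurable
  · filter_upwards [Metric.ball_mem_nhds ζ one_pos] with ζ' hζ'
    filter_upwards with z
    rw [Real.norm_eq_abs, abs_of_nonneg (by positivity)]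
    have h1 := coh_bound hD ζ z
    have h2 := coh_bound hD ζ' z
    have h3 : (1 + ‖z - ζ'‖) ^ (-(3 : ℝ)) ≤ 8 * (1 + ‖z - ζ‖) ^ (-(3 : ℝ)) := by
      have hp : (0 : ℝ) < 1 + ‖z - ζ‖ := by positivity
      have hp' : (0 : ℝ) < 1 + ‖z - ζ'‖ := by positivity
      have e3 : ∀ x : ℝ, 0 < x → x ^ (-(3 : ℝ)) = (x ^ 3)⁻¹ := by
        intro x hx
        rw [Real.rpow_neg hx.le]
        congr 1
        exact_mod_cast Real.rpow_natCast x 3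
      rw [e3 _ hp, e3 _ hp', ← div_eq_mul_inv, inv_le_comm₀ (by positivity) (by positivity),
        inv_div, div_le_iff₀ (by norm_num)]
      have h4 : 1 + ‖z - ζ‖ ≤ 2 * (1 + ‖z - ζ'‖) := by
        have h5 : ‖z - ζ‖ ≤ ‖z - ζ'‖ + ‖ζ' - ζ‖ := by
          have := norm_add_le (z - ζ') (ζ' - ζ)
          rwa [sub_add_sub_cancel] at this
        have h6 : ‖ζ' - ζ‖ < 1 := by rwa [← dist_eq_norm]
        have h7 := norm_nonneg (z - ζ')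
        linarith
      calc (1 + ‖z - ζ‖) ^ 3 ≤ (2 * (1 + ‖z - ζ'‖)) ^ 3 := by gcongr
        _ = (1 + ‖z - ζ'‖) ^ 3 * 8 := by ring
    calc ‖wfac ζ z * K (z - ζ) - wfac ζ' z * K (z - ζ')‖ * Real.exp (-‖z‖ ^ 2 / 2)
        ≤ (‖wfac ζ z * K (z - ζ)‖ + ‖wfac ζ' z * K (z - ζ')‖) * Real.exp (-‖z‖ ^ 2 / 2) := by
          gcongr
          exact norm_sub_le _ _
      _ = ‖wfac ζ z * K (z - ζ)‖ * Real.exp (-‖z‖ ^ 2 / 2) +
          ‖wfac ζ' z * K (z - ζ')‖ * Real.exp (-‖z‖ ^ 2 / 2) := by ring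
      _ ≤ D * (1 + ‖z - ζ‖) ^ (-(3 : ℝ)) + D * (1 + ‖z - ζ'‖) ^ (-(3 : ℝ)) := add_le_add h1 h2
      _ ≤ D * (1 + ‖z - ζ‖) ^ (-(3 : ℝ)) + D * (8 * (1 + ‖z - ζ‖) ^ (-(3 : ℝ))) := by gcongr
      _ = _ := by ring
  · exact (int3 ζ).const_mul _
  · filter_upwards with z
    have hc : Continuous (fun ζ' => ‖wfac ζ z * K (z - ζ) - wfac ζ' z * K (z - ζ')‖ *
        Real.exp (-‖z‖ ^ 2 / 2)) := by
      unfold wfac
      fun_prop
    have := hc.tendsto ζ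
    simpa using this

end

end TP
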