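import Pool.Agent.W2helper17.TP.Def

/-!
# Weyl operators on `L²(ℂ, gm)`
-/

namespace TP

open MeasureTheory Complex
open scoped ENNReal

noncomputable section

/-- the density of `gm` -/
def dens (z : ℂ) : ℝ≥0∞ := ENNReal.ofReal (Real.exp (-‖z‖ ^ 2) / Real.pi)

theorem dens_meas : Measurable dens := by
  unfold dens
  fun_prop

theorem dens_ne_zero (z : ℂ) : dens z ≠ 0 := by
  unfold dens
  have : 0 < Real.exp (-‖z‖ ^ 2) / Real.pi := by positivity
  simpa using this

theorem gm_def : gm = (volume : Measure ℂ).withDensity dens := rfl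

theorem gm_ac : gm ≪ (volume : Measure ℂ) := withDensity_absolutelyContinuous _ _

theorem vol_ac : (volume : Measure ℂ) ≪ gm :=
  withDensity_absolutelyContinuous' dens_meas.aemeasurable
    (Filter.Eventually.of_forall dens_ne_zero)

theorem ae_gm_iff {p : ℂ → Prop} : (∀ᵐ z ∂gm, p z) ↔ ∀ᵐ z ∂(volume : Measure ℂ), p z :=
  ⟨fun h => vol_ac.ae_le h, fun h => gm_ac.ae_le h⟩

/-- translations preserve null sets of `gm` -/
theorem ae_shift {p : ℂ → Prop} (w : ℂ) (h : ∀ᵐ z ∂gm, p z) : ∀ᵐ z ∂gm, p (z - w) := by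
  rw [ae_gm_iff] at h ⊢
  exact (measurePreserving_sub_right (volume : Measure ℂ) w).quasiMeasurePreserving.ae h

theorem aesm_shift {f : ℂ → ℂ} (w : ℂ) (h : AEStronglyMeasurable f gm) :
    AEStronglyMeasurable (fun z => f (z - w)) gm := by
  have h1 : AEStronglyMeasurable f volume := h.mono_ac vol_ac
  have h2 : AEStronglyMeasurable (fun z => f (z - w)) volume :=
    h1.comp_quasiMeasurePreserving
      (measurePreserving_sub_right (volume : Measure ℂ) w).quasiMeasurePreserving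
  exact h2.mono_ac gm_ac

/-- the exponential factor of the Weyl operator -/
def wfac (w z : ℂ) : ℂ := exp (z * starRingEnd ℂ w - (‖w‖ ^ 2 / 2 : ℝ))

theorem wfac_cont (w : ℂ) : Continuous (wfac w) := by
  unfold wfac
  fun_prop

theorem norm_wfac (w z : ℂ) :
    ‖wfac w z‖ ^ 2 * Real.exp (-‖z‖ ^ 2) = Real.exp (-‖z - w‖ ^ 2) := by
  unfold wfac
  rw [Complex.norm_exp, ← Real.exp_nat_mul, ← Real.exp_add]
  congr 1
  have h1 : ‖z - w‖ ^ 2 = ‖z‖ ^ 2 + ‖w‖ ^ 2 - 2 * (z * starRingEnd ℂ w).re := by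
    rw [← Complex.normSq_eq_norm_sq, ← Complex.normSq_eq_norm_sq, ← Complex.normSq_eq_norm_sq,
      Complex.normSq_sub]
  rw [h1, Complex.sub_re, Complex.ofReal_re]
  push_cast
  ring

theorem lintegral_shift (w : ℂ) (f : ℂ → ℂ) :
    ∫⁻ z, ‖wfac w z * f (z - w)‖ₑ ^ (2 : ℝ) ∂gm = ∫⁻ z, ‖f z‖ₑ ^ (2 : ℝ) ∂gm := by
  rw [gm_def, lintegral_withDensity_eq_lintegral_mul_non_measurable _ dens_meas
      (Filter.Eventually.of_forall fun z => ENNReal.ofReal_lt_top),
    lintegral_withDensity_eq_lintegral_mul_non_measurable _ dens_meas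
      (Filter.Eventually.of_forall fun z => ENNReal.ofReal_lt_top)]
  rw [← lintegral_sub_right_eq_self (fun z => (dens * fun z => ‖f z‖ₑ ^ (2 : ℝ)) z) w]
  congr 1
  funext z
  simp only [Pi.mul_apply]
  rw [enorm_mul, ENNReal.mul_rpow_of_nonneg _ _ (by norm_num), ← mul_assoc]
  congr 1
  have h := norm_wfac w z
  rw [show ‖wfac w z‖ₑ = ENNReal.ofReal ‖wfac w z‖ from (ofReal_norm _).symm,
    ENNReal.ofReal_rpow_of_nonneg (norm_nonneg _) (by norm_num)]
  unfold dens
  rw [← ENNReal.ofReal_mul (by positivity)]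
  congr 1
  rw [Real.rpow_two, ← h]
  ring

theorem eLpNorm_shift (w : ℂ) (f : ℂ → ℂ) :
    eLpNorm (fun z => wfac w z * f (z - w)) 2 gm = eLpNorm f 2 gm := by
  rw [eLpNorm_eq_lintegral_rpow_enorm_toReal (by norm_num) (by norm_num),
    eLpNorm_eq_lintegral_rpow_enorm_toReal (by norm_num) (by norm_num)]
  simp only [ENNReal.toReal_ofNat]
  rw [lintegral_shift]

theorem memLp_shift (w : ℂ) {f : ℂ → ℂ} (hf : MemLp f 2 gm) :
    MemLp (fun z => wfac w z * f (z - w)) 2 gm :=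
  ⟨(wfac_cont w).aestronglyMeasurable.mul (aesm_shift w hf.1), by
    rw [eLpNorm_shift]; exact hf.2⟩

/-- the Weyl operator `(W_w f)(z) = e^{z \bar w - |w|²/2} f(z - w)` -/
def W (w : ℂ) : H →ₗᵢ[ℂ] H where
  toFun f := (memLp_shift w (Lp.memLp f)).toLp _
  map_add' f g := by
    rw [← MemLp.toLp_add]
    apply MemLp.toLp_congr
    filter_upwards [ae_shift w (Lp.coeFn_add f g)] with z hz
    simp only [Pi.add_apply] at hz ⊢
    rw [hz]; ring
  map_smul' c f := by
    rw [RingHom.id_apply, ← MemLp.toLp_const_smul]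
    apply MemLp.toLp_congr
    filter_upwards [ae_shift w (Lp.coeFn_smul c f)] with z hz
    simp only [Pi.smul_apply, smul_eq_mul] at hz ⊢
    rw [hz]; ring
  norm_map' f := by
    change ‖(memLp_shift w (Lp.memLp f)).toLp _‖ = ‖f‖
    rw [Lp.norm_toLp, eLpNorm_shift]
    rfl

theorem W_coe (w : ℂ) (f : H) : W w f =ᵐ[gm] fun z => wfac w z * f (z - w) :=
  (memLp_shift w (Lp.memLp f)).coeFn_toLp

theorem W_congr (w : ℂ) {f : H} {g : ℂ → ℂ} (h : f =ᵐ[gm] g) :
    W w f =ᵐ[gm] fun z => wfac w z * g (z - w) := by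
  filter_upwards [W_coe w f, ae_shift w h] with z h1 h2
  rw [h1, h2]

/-- the cocycle of the Weyl operators -/
def coc (w v : ℂ) : ℂ := exp ((starRingEnd ℂ w * v - w * starRingEnd ℂ v) / 2)

theorem norm_coc (w v : ℂ) : ‖coc w v‖ = 1 := by
  unfold coc
  rw [Complex.norm_exp]
  have : ((starRingEnd ℂ w * v - w * starRingEnd ℂ v) / 2).re = 0 := by
    simp only [Complex.div_ofNat_re, Complex.sub_re, Complex.mul_re, Complex.conj_re,
      Complex.conj_im]
    ring
  rw [this, Real.exp_zero]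

theorem wfac_mul (w v z : ℂ) : wfac w z * wfac v (z - w) = coc w v * wfac (w + v) z := by
  unfold wfac coc
  rw [← Complex.exp_add, ← Complex.exp_add]
  congr 1
  have h1 : ∀ x : ℂ, (((‖x‖ ^ 2 / 2 : ℝ)) : ℂ) = x * starRingEnd ℂ x / 2 := by
    intro x
    rw [Complex.mul_conj, Complex.normSq_eq_norm_sq]
    push_cast
    ring
  rw [h1, h1, h1, map_add]
  ring

theorem W_W (w v : ℂ) (f : H) : W w (W v f) = coc w v • W (w + v) f := by
  apply Lp.ext
  filter_upwards [W_congr w (W_coe v f), Lp.coeFn_smul (coc w v) (W (w + v) f),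
    W_coe (w + v) f] with z h1 h2 h3
  rw [h1, h2, Pi.smul_apply, h3, smul_eq_mul, ← mul_assoc, ← mul_assoc, ← wfac_mul]
  rw [show z - w - v = z - (w + v) by ring]

theorem W_zero (f : H) : W 0 f = f := by
  apply Lp.ext
  filter_upwards [W_coe 0 f] with z h1
  rw [h1]
  simp [wfac]

theorem coc_neg (w : ℂ) : coc w (-w) = 1 := by
  unfold coc
  simp [mul_comm]

theorem coc_neg' (w : ℂ) : coc (-w) w = 1 := by
  unfold coc
  simp [mul_comm]

theorem W_neg_W (w : ℂ) (f : H) : W (-w) (W w f) = f := by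
  rw [W_W, coc_neg', neg_add_cancel, W_zero, one_smul]

theorem W_W_neg (w : ℂ) (f : H) : W w (W (-w) f) = f := by
  rw [W_W, coc_neg, add_neg_cancel, W_zero, one_smul]

theorem W_adj (w : ℂ) (f h : H) : inner ℂ (W w f) h = inner ℂ f (W (-w) h) := by
  conv_lhs => rw [← W_W_neg w h]
  exact (W w).inner_map_map f (W (-w) h)

theorem W_adj' (w : ℂ) (f h : H) : inner ℂ f (W w h) = inner ℂ (W (-w) f) h := by
  rw [W_adj, neg_neg]

theorem Bdm.shift {a : ℂ → ℂ} (ha : Bdm a) (w : ℂ) : Bdm (fun z => a (z - w)) :=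
  ⟨ha.1.comp (measurable_id.sub_const w), ha.2.imp fun _ hC z => hC _⟩

/-- covariance of multiplication operators -/
theorem W_M {a : ℂ → ℂ} (ha : Bdm a) (w : ℂ) (f : H) :
    W w (M a f) = M (fun z => a (z - w)) (W w f) := by
  apply Lp.ext
  filter_upwards [W_congr w (M_coe ha f), M_coe (ha.shift w) (W w f), W_coe w f] with z h1 h2 h3
  rw [h1, h2, h3]
  ring

end

end TP
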