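import Pool.Agent.W2helper17.TP.Fock
import Pool.Agent.W2helper17.TP.Weyl

/-!
# Project TP: the statements of the pieces

Proved in the imported files: the Weyl operators `W w` (linear isometries of `H = L²(ℂ, gm)`),
`W_coe`, `W_congr`, `W_W`, `W_adj`, `W_M`, the multiplication operators `M a` with `M_coe`,
the submodules `Fock j`.
-/

namespace TP

open MeasureTheory Complex
open scoped ENNReal

noncomputable section

/-- PIECE REP (a). The kernel at `0` of `Fock j` (a radial polynomial, Laguerre `L_j(|z|²)`,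
which is `tp j (z ^ j)`) reproduces the value at `0` up to a positive constant.
Proof: the average of `tp j g (e^{iθ} z)` over `θ` is `tp j g 0 * K z`; Fubini and rotation
invariance of `gm`. -/
def P_REP : Prop := ∀ j : ℕ, ∃ (K : ℂ → ℂ) (κ : ℝ), 0 < κ ∧ Continuous K ∧
  (∃ (C : ℝ) (N : ℕ), ∀ z, ‖K z‖ ≤ C * (1 + ‖z‖) ^ N) ∧
  (∃ g : ℂ → ℂ, Differentiable ℂ g ∧ ∀ z, K z = tp j g z) ∧
  ∀ g : ℂ → ℂ, Differentiable ℂ g → MemLp (tp j g) 2 gm →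
    ∫ z, starRingEnd ℂ (K z) * tp j g z ∂gm = κ * tp j g 0

/-- PIECE REP (b). `tp j 1 = (-\bar z)^j / j!`, and its inner product with `tp j g` is `c g(0)`.
Proof: the average of `(e^{iθ} z)^j tp j g (e^{iθ} z)` over `θ` is `(-1)^j |z|^{2j} g(0) / j!`. -/
def P_OM : Prop := ∀ j : ℕ,
  (∀ z, tp j (fun _ => 1) z = (1 / (j.factorial : ℂ)) * (-(starRingEnd ℂ z)) ^ j) ∧
  ∃ c : ℂ, c ≠ 0 ∧ ∀ g : ℂ → ℂ, Differentiable ℂ g → MemLp (tp j g) 2 gm →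
    ∫ z, starRingEnd ℂ (tp j (fun _ => 1) z) * tp j g z ∂gm = c * g 0

/-- continuous functions of polynomial growth are in `L²(gm)` (part of PIECE REP) -/
def P_POL : Prop := ∀ K : ℂ → ℂ, Continuous K →
  (∃ (C : ℝ) (N : ℕ), ∀ z, ‖K z‖ ≤ C * (1 + ‖z‖) ^ N) → MemLp K 2 gm

/-- PIECE CONT. strong continuity of the Weyl operators -/
def P_CONT : Prop := ∀ f : H, Continuous (fun w : ℂ => W w f)

/-- PIECE V. The coherent state transform `f ↦ (w ↦ ⟪W w u, f⟫)` maps `H` to `L²(ℂ, dw)`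
with norm at most `π^{-1/2} ∫ |u(z)| e^{-|z|²/2} dz` (Young inequality). -/
def P_V : Prop := ∀ u : H,
  Integrable (fun z : ℂ => ‖u z‖ * Real.exp (-‖z‖ ^ 2 / 2)) (volume : Measure ℂ) →
  ∀ f : H, MemLp (fun w : ℂ => inner ℂ (W w u) f) 2 (volume : Measure ℂ) ∧
    ∫ w : ℂ, ‖inner ℂ (W w u) f‖ ^ 2 ≤
      (1 / Real.pi) * (∫ z : ℂ, ‖u z‖ * Real.exp (-‖z‖ ^ 2 / 2)) ^ 2 * ‖f‖ ^ 2

/-- PIECE BDO. the band-dominated operators form a C*-algebra containing the `M a` -/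
def P_BDO : Prop :=
  (∀ A ∈ BDO, ∀ B ∈ BDO, A ∘L B ∈ BDO) ∧
  (∀ A ∈ BDO, ContinuousLinearMap.adjoint A ∈ BDO) ∧
  (∀ a : ℂ → ℂ, Bdm a → M a ∈ BDO) ∧
  (∀ A ∈ BDO, ∀ B ∈ BDO, A + B ∈ BDO) ∧
  (∀ (c : ℂ), ∀ A ∈ BDO, c • A ∈ BDO)

/-- PIECE AVG. For band-dominated `A` the averages
`(1/(π r²)) ∫ M_{B(w,r)} A M_{B(w,r)} dw` are close to `A` in norm for a suitable `r`.
Proof for a band operator `B` of width `ω`, `X` = average minus `B`: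
`⟪h, X f⟫ = (1/(π a²)) ∫ ⟪M_{B(w,a+ω')} h, X M_{B(w,a)} f⟫ dw`, and for `f, h` supported in
a ball `B(w, ρ)` one has `|⟪h, X f⟫| ≤ 2 ‖B‖ δ ‖f‖ ‖h‖` with
`δ² = sup_{|t| ≤ ρ} vol (B(0,r) Δ B(t,r)) / (π r²) ≤ 4 ρ / r`
(compare `1_{B(v,r)}(z)` with `1_{B(v,r)}(w)`). -/
def P_AVG : Prop := ∀ A ∈ BDO, ∀ ε : ℝ, 0 < ε → ∃ r : ℝ, 0 < r ∧ ∀ f h : H,
  ‖(1 / (Real.pi * r ^ 2) : ℝ) • (∫ w : ℂ,
      inner ℂ (M (ind (Metric.ball w r)) h) (A (M (ind (Metric.ball w r)) f)))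
    - inner ℂ h (A f)‖ ≤ ε * ‖f‖ * ‖h‖

/-- `P` is the orthogonal projection of `H` onto `Fock j` -/
def IsProjF (j : ℕ) (P : H →L[ℂ] H) : Prop :=
  (∀ f, P f ∈ Fock j) ∧ (∀ f ∈ Fock j, P f = f) ∧ ∀ f h, inner ℂ (P f) h = inner ℂ f (P h)

/-- PIECE PB. The projection onto `Fock j` is band-dominated. Proof: for all `f, h`
`⟪h, P f⟫ = C ∫ ⟪h, W_w k⟫ ⟪W_w k, f⟫ dw`, `k = ` the kernel of `P_REP`, `C = 1/(π κ²)`
(this is `P_RES` with `a = 1`, may be assumed); replace `k` by `M_{B(0,R)} k`, this gives a band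
operator; the error is controlled by `P_V`. -/
def P_PB : Prop := ∀ (j : ℕ) (P : H →L[ℂ] H), IsProjF j P → P ∈ BDO

/-- resolution of Toeplitz operators into coherent states (owner) -/
def P_RES : Prop := ∀ j : ℕ, ∃ (K : ℂ → ℂ) (hK : MemLp K 2 gm) (C κ : ℝ), 0 < C ∧ 0 < κ ∧
  Continuous K ∧ (∃ (D : ℝ) (N : ℕ), ∀ z, ‖K z‖ ≤ D * (1 + ‖z‖) ^ N) ∧ hK.toLp K ∈ Fock j ∧
  ‖hK.toLp K‖ ^ 2 = κ ∧
  ∀ P : H →L[ℂ] H, IsProjF j P → ∀ a : ℂ → ℂ, Bdm a → ∀ f h : H,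
    inner ℂ h (P (M a (P f))) =
      C * ∫ w : ℂ, a w * (inner ℂ h (W w (hK.toLp K)) * inner ℂ (W w (hK.toLp K)) f)

/-- the Fock spaces are closed and invariant (owner) -/
def P_CLO : Prop := ∀ j : ℕ, IsClosed (Fock j : Set H) ∧ ∀ w, ∀ f ∈ Fock j, W w f ∈ Fock j

/-- covariance of `tp j` under the Weyl operators (owner) -/
def P_COV : Prop := ∀ (j : ℕ) (g : ℂ → ℂ), Differentiable ℂ g → ∀ w z : ℂ,
  wfac w z * tp j g (z - w) = tp j (fun u => wfac w u * g (u - w)) z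

/-- PIECE SCHUR (`P_OM → P_POL → P_COV → P_CLO → P_SCHUR`). Operators commuting with the Weyl operators on `Fock j` are scalar.
Proof: `Ω = tp j 1`; for `f = tp j g` one has `⟪W ζ Ω, f⟫ = c e^{-|ζ|²/2} g(ζ)`; apply it to
`P S Ω` and `P S^* Ω`: this gives entire `g, g'` with `g(ζ) = conj (g'(-ζ))`, so `g` is
constant. Then use that the `W ζ Ω` span a dense subspace of `Fock j`. -/
def P_SCHUR : Prop := ∀ (j : ℕ) (P S : H →L[ℂ] H), IsProjF j P →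
  (∀ w f, P (S (W w (P f))) = W w (P (S (P f)))) → ∃ c : ℂ, ∀ f, P (S (P f)) = c • P f

end

end TP
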