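import Pool.Agent.W2helper17.TP.Chi

namespace TP

open MeasureTheory Complex Filter
open scoped ENNReal Topology

noncomputable section

/-- closed algebras of operators containing the (corner versions of the) Toeplitz operators -/
structure Alg (P : H →L[ℂ] H) (S : Set (H →L[ℂ] H)) : Prop where
  closed : IsClosed S
  add : ∀ A ∈ S, ∀ B ∈ S, A + B ∈ S
  smul : ∀ (c : ℂ), ∀ A ∈ S, c • A ∈ S
  mul : ∀ A ∈ S, ∀ B ∈ S, A ∘L B ∈ S
  top : ∀ a, Bdm a → P ∘L M a ∘L P ∈ S

theorem coc_nat (η : ℂ) (m : ℕ) : coc η (m * η) = 1 := by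
  unfold coc
  have : (starRingEnd ℂ η * (m * η) - η * starRingEnd ℂ (m * η)) / 2 = 0 := by
    rw [map_mul, Complex.conj_natCast]
    ring
  rw [this, Complex.exp_zero]

theorem W_mem (hSCHUR : P_SCHUR) (hCONT : P_CONT) {j : ℕ} {P : H →L[ℂ] H}
    (hP : IsProjF j P) (hnz : ∃ u ∈ Fock j, u ≠ 0) {S : Set (H →L[ℂ] H)} (hS : Alg P S) (ξ : ℂ) :
    (W ξ).toContinuousLinearMap ∘L P ∈ S := by
  obtain ⟨u, huF, hu0⟩ := hnz
  have hPu : P u = u := hP.2.1 u huF
  obtain ⟨δ, hδ, hball⟩ := chr_ne hCONT (j := j) u hu0 hPu hP.2.2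
  have hsmall : ∀ η : ℂ, ‖η‖ < δ → (W η).toContinuousLinearMap ∘L P ∈ S := by
    intro η hη
    obtain ⟨c, hc⟩ := chr_scalar hSCHUR hP η
    have hc0 : c ≠ 0 := by
      rcases hball η hη with h | h
      · intro h0
        apply h
        rw [hc u, h0, zero_smul, inner_zero_right]
      · exact absurd (hP.2.1 _ (Fock_W η huF)) h
    have h1 : (W η).toContinuousLinearMap ∘L P = c⁻¹ • (P ∘L M (chr η) ∘L P) := by
      ext1 f
      have h2 := hc f
      simp only [ContinuousLinearMap.comp_apply, ContinuousLinearMap.smul_apply,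
        LinearIsometry.coe_toContinuousLinearMap]
      rw [h2, smul_smul, inv_mul_cancel₀ hc0, one_smul]
    rw [h1]
    exact hS.smul _ _ (hS.top _ (chr_bdm η))
  obtain ⟨n, hn⟩ := exists_nat_gt (‖ξ‖ / δ)
  have hn0 : 0 < n := by
    rcases Nat.eq_zero_or_pos n with h | h
    · subst h
      have : 0 ≤ ‖ξ‖ / δ := by positivity
      simp only [Nat.cast_zero] at hn
      linarith
    · exact h
  have hnr : (0 : ℝ) < n := by exact_mod_cast hn0
  set η : ℂ := ξ / n with hη
  have hηδ : ‖η‖ < δ := by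
    rw [hη, norm_div, Complex.norm_natCast, div_lt_iff₀ hnr]
    rw [div_lt_iff₀ hδ] at hn
    linarith
  have hall : ∀ m : ℕ, (W (((m + 1 : ℕ) : ℂ) * η)).toContinuousLinearMap ∘L P ∈ S := by
    intro m
    induction m with
    | zero =>
      have := hsmall η hηδ
      simpa using this
    | succ m ih =>
      have h1 : (W (((m + 1 + 1 : ℕ) : ℂ) * η)).toContinuousLinearMap ∘L P =
          ((W η).toContinuousLinearMap ∘L P) ∘L
            ((W (((m + 1 : ℕ) : ℂ) * η)).toContinuousLinearMap ∘L P) := by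
        ext1 f
        simp only [ContinuousLinearMap.comp_apply, LinearIsometry.coe_toContinuousLinearMap]
        rw [hP.2.1 _ (Fock_W _ (hP.1 f)), W_W, coc_nat, one_smul]
        congr 2
        push_cast
        ring
      rw [h1]
      exact hS.mul _ (hsmall η hηδ) _ ih
  have h2 := hall (n - 1)
  have h3 : (((n - 1 + 1 : ℕ)) : ℂ) * η = ξ := by
    rw [Nat.sub_add_cancel hn0, hη]
    have : (n : ℂ) ≠ 0 := by exact_mod_cast hn0.ne'
    field_simp
  rwa [h3] at h2

end

end TP
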