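import Pool.Agent.W2helper17.TP.Nu
import Pool.Agent.W2helper17.TP.Wmem

namespace TP

open MeasureTheory Complex Filter
open scoped ENNReal Topology

noncomputable section

theorem opNorm_le_of_inner (T : H →L[ℂ] H) {B : ℝ} (hB : 0 ≤ B)
    (h : ∀ f h : H, ‖inner ℂ h (T f)‖ ≤ B * ‖f‖ * ‖h‖) : ‖T‖ ≤ B := by
  refine T.opNorm_le_bound hB fun f => ?_
  rcases eq_or_lt_of_le (norm_nonneg (T f)) with h0 | h0
  · rw [← h0]; positivity
  · have h1 := h f (T f)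
    rw [inner_self_eq_norm_sq_to_K, norm_pow] at h1
    have h2 : ‖((‖T f‖ : ℝ) : ℂ)‖ = ‖T f‖ := by
      rw [Complex.norm_real, norm_norm]
    have h3 : ‖T f‖ ^ 2 ≤ B * ‖f‖ * ‖T f‖ := by
      have := h1
      simpa [h2] using this
    nlinarith

theorem coc_mul_coc (w v : ℂ) : coc w v * coc v w = 1 := by
  unfold coc
  rw [← Complex.exp_add]
  have : (starRingEnd ℂ w * v - w * starRingEnd ℂ v) / 2 +
      (starRingEnd ℂ v * w - v * starRingEnd ℂ w) / 2 = 0 := by ring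
  rw [this, Complex.exp_zero]

theorem W_comm (w v : ℂ) (f : H) : W w (W v f) = (coc w v ^ 2) • W v (W w f) := by
  rw [W_W, W_W, smul_smul, add_comm v w]
  congr 1
  rw [pow_two, mul_assoc, coc_mul_coc, mul_one]

theorem phase_cancel (A : H →L[ℂ] H) (k y f : H) (a φ : ℂ) (hφ : ‖φ‖ = 1) :
    inner ℂ k (A (φ • y)) * (a * inner ℂ (φ • y) f) =
      inner ℂ k (A y) * (a * inner ℂ y f) := by
  rw [map_smul, inner_smul_right, inner_smul_left]
  have h1 : φ * starRingEnd ℂ φ = 1 := by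
    rw [Complex.mul_conj, Complex.normSq_eq_norm_sq, hφ]
    norm_num
  calc φ * inner ℂ k (A y) * (a * ((starRingEnd ℂ) φ * inner ℂ y f))
      = (φ * starRingEnd ℂ φ) * (inner ℂ k (A y) * (a * inner ℂ y f)) := by ring
    _ = _ := by rw [h1, one_mul]

/-- the Hölder bound for products of coherent state transforms -/
theorem hold (hV : P_V) {u v : H}
    (hu : Integrable (fun z : ℂ => ‖u z‖ * Real.exp (-‖z‖ ^ 2 / 2)) (volume : Measure ℂ))
    (hv : Integrable (fun z : ℂ => ‖v z‖ * Real.exp (-‖z‖ ^ 2 / 2)) (volume : Measure ℂ))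
    (f h : H) :
    Integrable (fun z : ℂ => ‖inner ℂ (W z u) f‖ * ‖inner ℂ (W z v) h‖) volume ∧
    ∫ z : ℂ, ‖inner ℂ (W z u) f‖ * ‖inner ℂ (W z v) h‖ ≤
      (1 / Real.pi) * nu u * nu v * ‖f‖ * ‖h‖ := by
  obtain ⟨m1, b1⟩ := hV u hu f
  obtain ⟨m2, b2⟩ := hV v hv h
  refine ⟨m1.norm.integrable_mul m2.norm, ?_⟩
  have h22 : (2 : ℝ).HolderConjugate 2 := by
    constructor <;> norm_num
  have e2 : ENNReal.ofReal (2 : ℝ) = 2 := by norm_num
  have h1 := integral_mul_norm_le_Lp_mul_Lq (μ := (volume : Measure ℂ)) h22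
    (f := fun z : ℂ => inner ℂ (W z u) f) (g := fun z : ℂ => inner ℂ (W z v) h)
    (by rw [e2]; exact m1) (by rw [e2]; exact m2)
  refine h1.trans ?_
  have e3 : ∀ (F : ℂ → ℂ), (∫ a, ‖F a‖ ^ (2 : ℝ)) = ∫ a, ‖F a‖ ^ 2 := by
    intro F
    congr 1
    funext a
    exact Real.rpow_two _
  rw [e3, e3]
  have n1 := nu_nonneg u
  have n2 := nu_nonneg v
  have hpi := Real.pi_pos
  have s1 : (∫ a : ℂ, ‖inner ℂ (W a u) f‖ ^ 2) ^ (1 / (2 : ℝ)) ≤
      Real.sqrt (1 / Real.pi) * nu u * ‖f‖ := by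
    rw [← Real.sqrt_eq_rpow]
    refine Real.sqrt_le_iff.mpr ⟨by positivity, b1.trans (le_of_eq ?_)⟩
    rw [mul_pow, mul_pow, Real.sq_sqrt (by positivity)]
    rfl
  have s2 : (∫ a : ℂ, ‖inner ℂ (W a v) h‖ ^ 2) ^ (1 / (2 : ℝ)) ≤
      Real.sqrt (1 / Real.pi) * nu v * ‖h‖ := by
    rw [← Real.sqrt_eq_rpow]
    refine Real.sqrt_le_iff.mpr ⟨by positivity, b2.trans (le_of_eq ?_)⟩
    rw [mul_pow, mul_pow, Real.sq_sqrt (by positivity)]
    rfl
  calc _ ≤ (Real.sqrt (1 / Real.pi) * nu u * ‖f‖) * (Real.sqrt (1 / Real.pi) * nu v * ‖h‖) := by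
        gcongr
    _ = (Real.sqrt (1 / Real.pi) * Real.sqrt (1 / Real.pi)) * nu u * nu v * ‖f‖ * ‖h‖ := by ring
    _ = _ := by rw [Real.mul_self_sqrt (by positivity)]

end

end TP
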