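import Pool.Agent.W2helper17.TP.Xop

namespace TP

open MeasureTheory Complex Filter
open scoped ENNReal Topology

noncomputable section

/-- the coherent state data of `Fock j` -/
structure Coh (j : ℕ) (P : H →L[ℂ] H) where
  K : ℂ → ℂ
  hK : MemLp K 2 gm
  C : ℝ
  hC : 0 < C
  cont : Continuous K
  pol : ∃ (D : ℝ) (N : ℕ), ∀ z, ‖K z‖ ≤ D * (1 + ‖z‖) ^ N
  mem : hK.toLp K ∈ Fock j
  nz : hK.toLp K ≠ 0
  proj : IsProjF j P
  res : ∀ a : ℂ → ℂ, Bdm a → ∀ f h : H,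
    inner ℂ h (P (M a (P f))) =
      C * ∫ w : ℂ, a w * (inner ℂ h (W w (hK.toLp K)) * inner ℂ (W w (hK.toLp K)) f)

variable {j : ℕ} {P : H →L[ℂ] H}

/-- the vacuum -/
def Coh.k (c : Coh j P) : H := c.hK.toLp c.K

/-- the symbol `z ↦ ⟪k_z, A W_ζ k_z⟫` -/
def Coh.sym (c : Coh j P) (A : H →L[ℂ] H) (ζ z : ℂ) : ℂ :=
  inner ℂ (W z c.k) (A (W ζ (W z c.k)))

/-- `P M_{a_ζ} P W_{-ζ}` -/
def Coh.X (c : Coh j P) (A : H →L[ℂ] H) (ζ : ℂ) : H →L[ℂ] H :=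
  P ∘L M (c.sym A ζ) ∘L P ∘L (W (-ζ)).toContinuousLinearMap

theorem Coh.sym_bdm (hCONT : P_CONT) (c : Coh j P) (A : H →L[ℂ] H) (ζ : ℂ) :
    Bdm (c.sym A ζ) := by
  refine ⟨?_, ‖c.k‖ * (‖A‖ * ‖c.k‖), fun z => ?_⟩
  · have h1 := hCONT c.k
    have h2 : Continuous (fun z => W ζ (W z c.k)) := (W ζ).continuous.comp h1
    exact (h1.inner (A.continuous.comp h2)).measurable
  · unfold Coh.sym
    refine (norm_inner_le_norm _ _).trans ?_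
    rw [(W z).norm_map]
    gcongr
    refine (A.le_opNorm _).trans ?_
    rw [(W ζ).norm_map, (W z).norm_map]

theorem Coh.X_form (hCONT : P_CONT) (c : Coh j P) (A : H →L[ℂ] H) (ζ : ℂ) (f h : H) :
    inner ℂ h (c.X A ζ f) = c.C * ∫ z : ℂ, inner ℂ (W z c.k) (A (W z (W ζ c.k))) *
      (inner ℂ h (W z c.k) * inner ℂ (W z (W ζ c.k)) f) := by
  have h1 : c.X A ζ f = P (M (c.sym A ζ) (P (W (-ζ) f))) := rfl
  rw [h1, c.res _ (c.sym_bdm hCONT A ζ)]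
  congr 2
  funext z
  have h2 : inner ℂ (W z (c.hK.toLp c.K)) (W (-ζ) f) = inner ℂ (W ζ (W z c.k)) f := by
    rw [W_adj' (-ζ), neg_neg]
    rfl
  rw [h2]
  unfold Coh.sym
  rw [W_comm ζ z]
  have h3 : ‖(coc ζ z ^ 2 : ℂ)‖ = 1 := by rw [norm_pow, norm_coc, one_pow]
  exact phase_cancel A _ _ _ _ _ h3

theorem Coh.int_k (c : Coh j P) (ζ : ℂ) :
    Integrable (fun z : ℂ => ‖(W ζ c.k : H) z‖ * Real.exp (-‖z‖ ^ 2 / 2)) volume :=
  coh_int c.hK c.cont c.pol ζ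

theorem Coh.int_k0 (c : Coh j P) :
    Integrable (fun z : ℂ => ‖(c.k : H) z‖ * Real.exp (-‖z‖ ^ 2 / 2)) volume := by
  have := c.int_k 0
  rwa [W_zero] at this

/-- basic estimate for the bilinear integrals -/
theorem Coh.est (hV : P_V) (hCONT : P_CONT) (c : Coh j P) (A : H →L[ℂ] H) (y u f h : H)
    (hu : Integrable (fun z : ℂ => ‖u z‖ * Real.exp (-‖z‖ ^ 2 / 2)) (volume : Measure ℂ)) :
    Integrable (fun z : ℂ => inner ℂ (W z c.k) (A (W z y)) *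
      (inner ℂ h (W z c.k) * inner ℂ (W z u) f)) volume ∧
    ‖∫ z : ℂ, inner ℂ (W z c.k) (A (W z y)) * (inner ℂ h (W z c.k) * inner ℂ (W z u) f)‖ ≤
      (‖c.k‖ * ‖A‖ * (1 / Real.pi) * nu c.k) * (‖y‖ * nu u) * ‖f‖ * ‖h‖ := by
  obtain ⟨i1, b1⟩ := hold hV hu c.int_k0 f h
  have hbd : ∀ z : ℂ, ‖inner ℂ (W z c.k) (A (W z y)) *
      (inner ℂ h (W z c.k) * inner ℂ (W z u) f)‖ ≤
      (‖c.k‖ * (‖A‖ * ‖y‖)) * (‖inner ℂ (W z u) f‖ * ‖inner ℂ (W z c.k) h‖) := by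
    intro z
    rw [norm_mul, norm_mul, mul_comm ‖inner ℂ h (W z c.k)‖, norm_inner_symm h]
    gcongr
    refine (norm_inner_le_norm _ _).trans ?_
    rw [(W z).norm_map]
    gcongr
    refine (A.le_opNorm _).trans ?_
    rw [(W z).norm_map]
  have hmeas : AEStronglyMeasurable (fun z : ℂ => inner ℂ (W z c.k) (A (W z y)) *
      (inner ℂ h (W z c.k) * inner ℂ (W z u) f)) volume := by
    have h1 := hCONT c.k
    have h2 := hCONT y
    have h3 := hCONT u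
    exact ((h1.inner (A.continuous.comp h2)).mul
      ((continuous_const.inner h1).mul (h3.inner continuous_const))).aestronglyMeasurable
  have i2 := i1.const_mul (‖c.k‖ * (‖A‖ * ‖y‖))
  refine ⟨Integrable.mono' i2 hmeas (Eventually.of_forall hbd), ?_⟩
  refine (norm_integral_le_of_norm_le i2 (Eventually.of_forall hbd)).trans ?_
  rw [integral_const_mul]
  calc (‖c.k‖ * (‖A‖ * ‖y‖)) * ∫ z : ℂ, ‖inner ℂ (W z u) f‖ * ‖inner ℂ (W z c.k) h‖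
      ≤ (‖c.k‖ * (‖A‖ * ‖y‖)) * ((1 / Real.pi) * nu u * nu c.k * ‖f‖ * ‖h‖) := by gcongr
    _ = _ := by ring

theorem Coh.X_diff (hV : P_V) (hCONT : P_CONT) (c : Coh j P) (A : H →L[ℂ] H) (ζ ζ' : ℂ) :
    ‖c.X A ζ - c.X A ζ'‖ ≤ c.C * (‖c.k‖ * ‖A‖ * (1 / Real.pi) * nu c.k) *
      (‖W ζ c.k - W ζ' c.k‖ * nu (W ζ c.k) + ‖c.k‖ * nu (W ζ c.k - W ζ' c.k)) := by
  set u : H := W ζ c.k - W ζ' c.k with hu
  have n0 := nu_nonneg c.k
  have n1 := nu_nonneg (W ζ c.k)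
  have n2 := nu_nonneg u
  have hpi := Real.pi_pos
  have hC := c.hC
  refine opNorm_le_of_inner _ (by positivity) fun f h => ?_
  have hui : Integrable (fun z : ℂ => ‖u z‖ * Real.exp (-‖z‖ ^ 2 / 2)) (volume : Measure ℂ) :=
    coh_sub_int c.hK c.cont c.pol ζ ζ'
  obtain ⟨i1, b1⟩ := c.est hV hCONT A u (W ζ c.k) f h (c.int_k ζ)
  obtain ⟨i2, b2⟩ := c.est hV hCONT A (W ζ' c.k) u f h hui
  obtain ⟨i3, _⟩ := c.est hV hCONT A (W ζ c.k) (W ζ c.k) f h (c.int_k ζ)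
  obtain ⟨i4, _⟩ := c.est hV hCONT A (W ζ' c.k) (W ζ' c.k) f h (c.int_k ζ')
  rw [ContinuousLinearMap.sub_apply, inner_sub_right, c.X_form hCONT, c.X_form hCONT,
    ← mul_sub, ← integral_sub i3 i4]
  have e1 : (fun z : ℂ => inner ℂ (W z c.k) (A (W z (W ζ c.k))) *
        (inner ℂ h (W z c.k) * inner ℂ (W z (W ζ c.k)) f) -
      inner ℂ (W z c.k) (A (W z (W ζ' c.k))) *
        (inner ℂ h (W z c.k) * inner ℂ (W z (W ζ' c.k)) f)) =
      fun z => inner ℂ (W z c.k) (A (W z u)) *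
        (inner ℂ h (W z c.k) * inner ℂ (W z (W ζ c.k)) f) +
      inner ℂ (W z c.k) (A (W z (W ζ' c.k))) *
        (inner ℂ h (W z c.k) * inner ℂ (W z u) f) := by
    funext z
    rw [hu, map_sub, map_sub, inner_sub_right, inner_sub_left]
    ring
  rw [e1, integral_add i1 i2, norm_mul]
  have hCn : ‖(c.C : ℂ)‖ = c.C := by
    rw [Complex.norm_real, Real.norm_eq_abs, abs_of_pos hC]
  rw [hCn]
  have hn : ‖W ζ' c.k‖ = ‖c.k‖ := (W ζ').norm_map _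
  rw [hn] at b2
  calc c.C * ‖_ + _‖ ≤ c.C * ((‖c.k‖ * ‖A‖ * (1 / Real.pi) * nu c.k) *
        (‖u‖ * nu (W ζ c.k)) * ‖f‖ * ‖h‖ +
        (‖c.k‖ * ‖A‖ * (1 / Real.pi) * nu c.k) * (‖c.k‖ * nu u) * ‖f‖ * ‖h‖) := by
        gcongr
        exact (norm_add_le _ _).trans (add_le_add b1 b2)
    _ = _ := by ring

theorem Coh.X_cont (hV : P_V) (hCONT : P_CONT) (c : Coh j P) (A : H →L[ℂ] H) :
    Continuous (c.X A) := by
  rw [continuous_iff_continuousAt]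
  intro ζ
  rw [ContinuousAt, tendsto_iff_norm_sub_tendsto_zero]
  have h1 : Tendsto (fun ζ' => nu (W ζ c.k - W ζ' c.k)) (𝓝 ζ) (𝓝 0) :=
    nu_tendsto c.hK c.cont c.pol ζ
  have h2 : Tendsto (fun ζ' => ‖W ζ c.k - W ζ' c.k‖) (𝓝 ζ) (𝓝 0) := by
    have := (tendsto_const_nhds (x := W ζ c.k)).sub ((hCONT c.k).tendsto ζ)
    rw [sub_self] at this
    simpa using this.norm
  have h3 := ((h2.mul_const (nu (W ζ c.k))).add (h1.const_mul ‖c.k‖)).const_mul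
    (c.C * (‖c.k‖ * ‖A‖ * (1 / Real.pi) * nu c.k))
  simp only [zero_mul, mul_zero, add_zero] at h3
  refine squeeze_zero (fun _ => norm_nonneg _) (fun ζ' => ?_) h3
  rw [norm_sub_rev]
  exact c.X_diff hV hCONT A ζ ζ'

end

end TP
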